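import Mathlib

/-!
The circulant colouring: the vertices of `K_n`, `n = 4 K m + 1`, are placed on a circle, the
`2 K m` distances are cut into `2 K` consecutive blocks of length `m`, and each block gets a
colour by a `2`-to-`1` map.
-/

namespace Pool.Agent.Lib.MP_b1acb3_co

open Finset

/-- Fold `{0, …, 4K - 1}` onto `{0, …, 2K - 1}`. -/
def fold (K a : ℕ) : ℕ := if a < 2 * K then a else 4 * K - 1 - a

theorem fold_lt {K a : ℕ} (h : a < 4 * K) : fold K a < 2 * K := by
  unfold fold
  split_ifs <;> omega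

theorem fold_symm {K a : ℕ} (h : a < 4 * K) : fold K (4 * K - 1 - a) = fold K a := by
  unfold fold
  split_ifs <;> omega

/-- Cyclic distance from `i` to `j`, minus one. -/
def rho (n i j : ℕ) : ℕ := if i < j then j - i - 1 else j + n - i - 1

/-- The class (block of distances) of the pair `i, j`. -/
def cls (K m i j : ℕ) : ℕ := fold K (rho (4 * K * m + 1) i j / m)

theorem rho_lt {n i j : ℕ} (hi : i < n) (hij : i ≠ j) (hj : j < n) : rho n i j < n - 1 := by
  unfold rho
  split_ifs <;> omega

theorem cls_symm {K m i j : ℕ} (hm : 0 < m) (hi : i < 4 * K * m + 1) (hj : j < 4 * K * m + 1) :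
    cls K m i j = cls K m j i := by
  wlog hij : i < j generalizing i j with H
  · rcases Nat.lt_or_ge j i with h | h
    · exact (H hj hi h).symm
    · have : i = j := by omega
      rw [this]
  unfold cls rho
  rw [if_pos hij, if_neg (by omega)]
  set d := j - i - 1 with hd
  have hd1 : i + (4 * K * m + 1) - j - 1 = 4 * K * m - 1 - d := by omega
  rw [hd1]
  have hq : d < 4 * K * m := by omega
  have hq1 : d / m < 4 * K := by
    rw [Nat.div_lt_iff_lt_mul hm]
    exact hq
  have h2 : (4 * K * m - 1 - d) / m = 4 * K - 1 - d / m := by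
    have hdm := Nat.div_add_mod d m
    have hmod := Nat.mod_lt d hm
    set q := d / m with hqdef
    set r := d % m with hrdef
    have h3 : 4 * K * m - 1 - d = (4 * K - 1 - q) * m + (m - 1 - r) := by
      obtain ⟨t, ht⟩ : ∃ t, 4 * K = q + 1 + t := ⟨4 * K - q - 1, by omega⟩
      have h4 : 4 * K - 1 - q = t := by omega
      rw [h4, ht]
      have h5 : (q + 1 + t) * m = m * q + m + t * m := by ring
      rw [h5]
      omega
    rw [h3, mul_comm, Nat.mul_add_div hm, Nat.div_eq_of_lt (by omega), add_zero]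
  rw [h2, fold_symm hq1]

/-- Comparison of two codes. -/
def cc (K : ℕ) (a b : ℕ × ℕ) : ℕ :=
  if a.1 < b.1 ∨ (a.1 = b.1 ∧ a.2 < b.2) then
    fold K (b.1 - a.1 - (if b.2 ≤ a.2 then 1 else 0))
  else fold K (a.1 - b.1 - (if a.2 ≤ b.2 then 1 else 0))

theorem cc_symm (K : ℕ) (a b : ℕ × ℕ) : cc K a b = cc K b a := by
  unfold cc
  by_cases h1 : a.1 < b.1 ∨ (a.1 = b.1 ∧ a.2 < b.2)
  · rw [if_pos h1, if_neg (show ¬ (b.1 < a.1 ∨ (b.1 = a.1 ∧ b.2 < a.2)) by omega)]
  · by_cases h2 : b.1 < a.1 ∨ (b.1 = a.1 ∧ b.2 < a.2)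
    · rw [if_neg h1, if_pos h2]
    · rw [if_neg h1, if_neg h2]
      have h3 : a.1 = b.1 := by omega
      have h4 : a.2 = b.2 := by omega
      rw [h3, h4]

/-- The class of a pair is determined by the cells and the order of the offsets. -/
theorem cls_eq_cc {K m : ℕ} (hm : 0 < m) {i j : ℕ} (hi : i < 4 * K * m + 1)
    (hj : j < 4 * K * m + 1) (hij : i ≠ j) {ri rj : ℕ}
    (hr1 : ri ≤ rj ↔ i % m ≤ j % m) (hr2 : rj ≤ ri ↔ j % m ≤ i % m) :
    cls K m i j = cc K (i / m, ri) (j / m, rj) := by
  wlog hlt : i < j generalizing i j ri rj with H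
  · rw [cls_symm hm hi hj, cc_symm]
    exact H hj hi hij.symm hr2 hr1 (by omega)
  have hi1 := Nat.div_add_mod i m
  have hj1 := Nat.div_add_mod j m
  have hi2 := Nat.mod_lt i hm
  have hj2 := Nat.mod_lt j hm
  have hle : i / m ≤ j / m := Nat.div_le_div_right hlt.le
  have hcond : (i / m, ri).1 < (j / m, rj).1 ∨
      ((i / m, ri).1 = (j / m, rj).1 ∧ (i / m, ri).2 < (j / m, rj).2) := by
    simp only
    rcases Nat.lt_or_ge (i / m) (j / m) with h | h
    · exact Or.inl h
    · right
      have he : i / m = j / m := le_antisymm hle h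
      refine ⟨he, ?_⟩
      rw [he] at hi1
      have : i % m < j % m := by omega
      by_contra hc
      push Not at hc
      have := hr2.1 hc
      omega
  unfold cls cc rho
  rw [if_pos hlt, if_pos hcond]
  simp only
  congr 1
  obtain ⟨t, ht⟩ : ∃ t, j / m = i / m + t := ⟨j / m - i / m, by omega⟩
  set a := i / m with ha
  set b := j / m with hb
  by_cases hc : rj ≤ ri
  · rw [if_pos hc]
    have hc' := hr2.1 hc
    have ht1 : 1 ≤ t := by
      rcases Nat.eq_zero_or_pos t with h0 | h0
      · exfalso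
        rw [h0, add_zero] at ht
        rw [ht] at hj1
        omega
      · exact h0
    obtain ⟨t', rfl⟩ : ∃ t', t = t' + 1 := ⟨t - 1, by omega⟩
    have e1 : j - i - 1 = m * t' + (m + j % m - i % m - 1) := by
      have : m * b = m * a + m * t' + m := by rw [ht]; ring
      omega
    rw [e1, Nat.mul_add_div hm, Nat.div_eq_of_lt (by omega)]
    omega
  · rw [if_neg hc]
    have hc' : i % m < j % m := by
      by_contra hcc
      exact hc (hr2.2 (by omega))
    have e1 : j - i - 1 = m * t + (j % m - i % m - 1) := by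
      have : m * b = m * a + m * t := by rw [ht]; ring
      omega
    rw [e1, Nat.mul_add_div hm, Nat.div_eq_of_lt (by omega)]
    omega

/-- Encode a class number as an element of `Fin K × Fin 2`. -/
def toCl (K : ℕ) (hK : 0 < K) (s : ℕ) : Fin K × Fin 2 :=
  (⟨(s / 2) % K, Nat.mod_lt _ hK⟩, ⟨s % 2, Nat.mod_lt _ (by norm_num)⟩)

theorem toCl_inj {K : ℕ} (hK : 0 < K) {s t : ℕ} (hs : s < 2 * K) (ht : t < 2 * K)
    (h : toCl K hK s = toCl K hK t) : s = t := by
  unfold toCl at h
  rw [Prod.mk.injEq, Fin.mk.injEq, Fin.mk.injEq] at h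
  obtain ⟨h1, h2⟩ := h
  rw [Nat.mod_eq_of_lt (by omega), Nat.mod_eq_of_lt (by omega)] at h1
  omega

/-- The colour of the pair `i, j`. -/
def col (K m : ℕ) (hK : 0 < K) (σ : Equiv.Perm (Fin K × Fin 2)) (i j : ℕ) : Fin K :=
  (σ (toCl K hK (cls K m i j))).1

/-- The circulant colouring of `K_n`, `n = 4 K m + 1`. -/
def circ (K m : ℕ) (hK : 0 < K) (hm : 0 < m) (σ : Equiv.Perm (Fin K × Fin 2)) :
    Sym2 (Fin (4 * K * m + 1)) → Fin K :=
  Sym2.lift ⟨fun i j => col K m hK σ i j, fun i j => by
    show col K m hK σ i j = col K m hK σ j i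
    unfold col
    rw [cls_symm hm i.2 j.2]⟩

theorem circ_mk (K m : ℕ) (hK : 0 < K) (hm : 0 < m) (σ : Equiv.Perm (Fin K × Fin 2))
    (i j : Fin (4 * K * m + 1)) : circ K m hK hm σ s(i, j) = col K m hK σ i j := rfl

theorem card_classes {K : ℕ} (hK : 0 < K) (σ : Equiv.Perm (Fin K × Fin 2)) (k : Fin K) :
    ((range (2 * K)).filter (fun s => (σ (toCl K hK s)).1 = k)).card = 2 := by
  have h1 : ((range (2 * K)).filter (fun s => (σ (toCl K hK s)).1 = k)).card =
      ((univ : Finset (Fin K × Fin 2)).filter (fun x => x.1 = k)).card := by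
    apply card_bij (fun s _ => σ (toCl K hK s))
    · intro s hs
      rw [mem_filter] at hs ⊢
      exact ⟨mem_univ _, hs.2⟩
    · intro s hs t ht hst
      rw [mem_filter, mem_range] at hs ht
      exact toCl_inj hK hs.1 ht.1 (σ.injective hst)
    · intro x hx
      rw [mem_filter] at hx
      have hy1 := (σ⁻¹ x).1.2
      have hy2 := (σ⁻¹ x).2.2
      have hy : toCl K hK (2 * (σ⁻¹ x).1.1 + (σ⁻¹ x).2.1) = σ⁻¹ x := by
        unfold toCl
        have e1 : (2 * (σ⁻¹ x).1.1 + (σ⁻¹ x).2.1) / 2 = (σ⁻¹ x).1.1 := by omega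
        have e2 : (2 * (σ⁻¹ x).1.1 + (σ⁻¹ x).2.1) % 2 = (σ⁻¹ x).2.1 := by omega
        apply Prod.ext
        · apply Fin.ext
          show (2 * (σ⁻¹ x).1.1 + (σ⁻¹ x).2.1) / 2 % K = (σ⁻¹ x).1.1
          rw [e1, Nat.mod_eq_of_lt hy1]
        · apply Fin.ext
          exact e2
      have hσ : σ (σ⁻¹ x) = x := Equiv.apply_symm_apply σ x
      refine ⟨2 * (σ⁻¹ x).1.1 + (σ⁻¹ x).2.1, ?_, ?_⟩
      · rw [mem_filter, mem_range, hy, hσ]
        exact ⟨by omega, hx.2⟩
      · show σ (toCl K hK (2 * (σ⁻¹ x).1.1 + (σ⁻¹ x).2.1)) = x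
        rw [hy, hσ]
  rw [h1]
  have h2 : (univ : Finset (Fin K × Fin 2)).filter (fun x => x.1 = k) =
      ({k} : Finset (Fin K)) ×ˢ (univ : Finset (Fin 2)) := by
    ext x
    rw [mem_filter, mem_product, mem_singleton]
    simp
  rw [h2, card_product, card_singleton, card_univ, Fintype.card_fin]

theorem card_folded {K : ℕ} (P : ℕ → Prop) [DecidablePred P] :
    ((range (4 * K)).filter (fun a => P (fold K a))).card =
      2 * ((range (2 * K)).filter P).card := by
  have h1 : (range (4 * K)).filter (fun a => P (fold K a)) =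
      (range (2 * K)).filter P ∪
        ((range (2 * K)).filter P).image (fun s => 4 * K - 1 - s) := by
    ext a
    rw [mem_union, mem_filter, mem_filter, mem_image, mem_range, mem_range]
    constructor
    · rintro ⟨h, hP⟩
      unfold fold at hP
      by_cases h2 : a < 2 * K
      · left
        rw [if_pos h2] at hP
        exact ⟨h2, hP⟩
      · right
        rw [if_neg h2] at hP
        refine ⟨4 * K - 1 - a, ?_, by omega⟩
        rw [mem_filter, mem_range]
        exact ⟨by omega, hP⟩
    · rintro (⟨h, hP⟩ | ⟨s, hs, rfl⟩)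
      · refine ⟨by omega, ?_⟩
        unfold fold
        rw [if_pos h]
        exact hP
      · rw [mem_filter, mem_range] at hs
        refine ⟨by omega, ?_⟩
        rw [fold_symm (by omega)]
        unfold fold
        rw [if_pos hs.1]
        exact hs.2
  have hinj : Set.InjOn (fun s => 4 * K - 1 - s) ((range (2 * K)).filter P : Set ℕ) := by
    intro s hs t ht hst
    rw [mem_coe, mem_filter, mem_range] at hs ht
    simp only at hst
    omega
  have hdis : Disjoint ((range (2 * K)).filter P)
      (((range (2 * K)).filter P).image (fun s => 4 * K - 1 - s)) := by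
    rw [disjoint_left]
    intro a ha hb
    rw [mem_filter, mem_range] at ha
    rw [mem_image] at hb
    obtain ⟨s, hs, hsa⟩ := hb
    rw [mem_filter, mem_range] at hs
    omega
  rw [h1, card_union_of_disjoint hdis, card_image_of_injOn hinj]
  ring

theorem card_div {N m : ℕ} (hm : 0 < m) (P : ℕ → Prop) [DecidablePred P] :
    ((range (N * m)).filter (fun t => P (t / m))).card = m * ((range N).filter P).card := by
  have h1 : ((range (N * m)).filter (fun t => P (t / m))).card =
      (((range N).filter P) ×ˢ (range m)).card := by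
    apply card_bij' (fun t _ => (t / m, t % m)) (fun x _ => x.1 * m + x.2)
    · intro t ht
      rw [mem_filter, mem_range] at ht
      rw [mem_product, mem_filter, mem_range, mem_range]
      refine ⟨⟨?_, ht.2⟩, Nat.mod_lt _ hm⟩
      rw [Nat.div_lt_iff_lt_mul hm]
      exact ht.1
    · intro x hx
      rw [mem_product, mem_filter, mem_range, mem_range] at hx
      rw [mem_filter, mem_range]
      have h2 : (x.1 * m + x.2) / m = x.1 := by
        rw [mul_comm, Nat.mul_add_div hm, Nat.div_eq_of_lt hx.2, add_zero]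
      rw [h2]
      refine ⟨?_, hx.1.2⟩
      calc x.1 * m + x.2 < x.1 * m + m := by omega
        _ = (x.1 + 1) * m := by ring
        _ ≤ N * m := Nat.mul_le_mul_right _ hx.1.1
    · intro t _
      rw [mul_comm]
      exact Nat.div_add_mod t m
    · intro x hx
      rw [mem_product, mem_filter, mem_range, mem_range] at hx
      have h2 : (x.1 * m + x.2) / m = x.1 := by
        rw [mul_comm, Nat.mul_add_div hm, Nat.div_eq_of_lt hx.2, add_zero]
      have h3 : (x.1 * m + x.2) % m = x.2 := by
        rw [mul_comm, Nat.mul_add_mod, Nat.mod_eq_of_lt hx.2]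
      rw [h2, h3]
  rw [h1, card_product, card_range, mul_comm]

theorem card_rho {n : ℕ} (hn : 0 < n) (i : Fin n) (P : ℕ → Prop) [DecidablePred P] :
    (univ.filter (fun j : Fin n => j ≠ i ∧ P (rho n i j))).card =
      ((range (n - 1)).filter P).card := by
  have hi := i.2
  apply card_bij (fun (j : Fin n) _ => rho n i j)
  · intro j hj
    rw [mem_filter] at hj
    rw [mem_filter, mem_range]
    exact ⟨rho_lt i.2 (fun h => hj.2.1 (Fin.ext h.symm)) j.2, hj.2.2⟩
  · intro j hj j' hj' hjj
    rw [mem_filter] at hj hj'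
    have h1 : (i : ℕ) ≠ j := fun h => hj.2.1 (Fin.ext h.symm)
    have h2 : (i : ℕ) ≠ j' := fun h => hj'.2.1 (Fin.ext h.symm)
    have h3 := j.2
    have h4 := j'.2
    unfold rho at hjj
    apply Fin.ext
    split_ifs at hjj <;> omega
  · intro t ht
    rw [mem_filter, mem_range] at ht
    by_cases hc : (i : ℕ) + t + 1 < n
    · have he : rho n i (i + t + 1) = t := by
        unfold rho
        rw [if_pos (by omega)]
        omega
      refine ⟨⟨i + t + 1, hc⟩, ?_, he⟩
      rw [mem_filter]
      refine ⟨mem_univ _, ?_, ?_⟩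
      · intro h
        have := congrArg Fin.val h
        simp only at this
        omega
      · show P (rho n i (i + t + 1))
        rw [he]
        exact ht.2
    · have he : rho n i (i + t + 1 - n) = t := by
        unfold rho
        rw [if_neg (by omega)]
        omega
      refine ⟨⟨i + t + 1 - n, by omega⟩, ?_, he⟩
      rw [mem_filter]
      refine ⟨mem_univ _, ?_, ?_⟩
      · intro h
        have := congrArg Fin.val h
        simp only at this
        omega
      · show P (rho n i (i + t + 1 - n))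
        rw [he]
        exact ht.2

open Classical in
/-- Every colour class of the circulant colouring is `4m`-regular. -/
theorem circ_regular {K m : ℕ} (hK : 0 < K) (hm : 0 < m) (σ : Equiv.Perm (Fin K × Fin 2))
    (i : Fin (4 * K * m + 1)) (k : Fin K) :
    (univ.filter (fun j : Fin (4 * K * m + 1) => j ≠ i ∧ circ K m hK hm σ s(i, j) = k)).card =
      4 * m := by
  have h3 := card_rho (n := 4 * K * m + 1) (by omega) i
    (fun t => (σ (toCl K hK (fold K (t / m)))).1 = k)
  have h2 : 4 * K * m + 1 - 1 = (4 * K) * m := by omega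
  rw [h2, card_div hm (fun a => (σ (toCl K hK (fold K a))).1 = k),
    card_folded (fun s => (σ (toCl K hK s)).1 = k), card_classes hK σ k] at h3
  have h4 : (univ.filter (fun j : Fin (4 * K * m + 1) => j ≠ i ∧
      circ K m hK hm σ s(i, j) = k)).card = m * (2 * 2) := by
    rw [← h3]
    apply congrArg
    ext j
    rw [mem_filter, mem_filter]
    exact Iff.rfl
  rw [h4]
  ring

end Pool.Agent.Lib.MP_b1acb3_co
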