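import Pool.Agent.Lib.MP_b1acb3_co.Deg

/-!
The positive theorem with the degeneracy of the core in place of its maximum degree.
-/

namespace Pool.Agent.Lib.MP_b1acb3_co

open Finset

/-- An injection on `W` extends to an injection. -/
theorem extend_inj {V : Type} [Fintype V] [DecidableEq V] {n : ℕ} (W : Finset V) (f : V → Fin n)
    (hf : Set.InjOn f (W : Set V)) (hn : Fintype.card V ≤ n) :
    ∃ g : V → Fin n, Function.Injective g ∧ ∀ v ∈ W, g v = f v := by
  classical
  have h1 : (W.image f).card ≤ Fintype.card V :=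
    card_image_le.trans (card_le_univ W)
  obtain ⟨t, ht1, ht2, ht3⟩ := Finset.exists_subsuperset_card_eq (subset_univ (W.image f)) h1
    (by rw [card_univ, Fintype.card_fin]; exact hn)
  obtain ⟨g, hg⟩ := Finset.exists_equiv_extend_of_card_eq ht3.symm ht1 hf
  exact ⟨fun v => (g v : Fin n), fun a b hab => g.injective (Subtype.ext hab), hg⟩

theorem params (K w d h : ℝ) (hd : 1 ≤ d) (hh : 2 ≤ h) (hK : 2 * d * h ≤ K) (hw : 0 ≤ w)
    (n : ℝ) (hn : 64 * d * K * (w + 1) < n) :
    0 < n - w - d * h * (2 / (2 * K - 1) * n) ∧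
    (d - 1) * h * (n * (2 / (2 * K - 1) * n)) <
      2 * (n - w - d * h * (2 / (2 * K - 1) * n)) ^ 2 := by
  have hK4 : 4 ≤ K := by nlinarith
  have hden : 0 < 2 * K - 1 := by linarith
  have hdK : 4 * d ≤ K := by nlinarith
  have hdpos : 0 < d := by linarith
  have hnpos : 0 < n := by
    have : 0 ≤ 64 * d * K * (w + 1) := by positivity
    linarith
  -- `w ≤ n / (64 d K)`
  have hwn : 64 * d * K * w ≤ n := by nlinarith [mul_pos hdpos (by linarith : 0 < K)]
  have hq : d * h * (2 / (2 * K - 1) * n) ≤ K / (2 * K - 1) * n := by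
    have : d * h * (2 / (2 * K - 1) * n) = (2 * d * h) / (2 * K - 1) * n := by
      field_simp
    rw [this]
    apply mul_le_mul_of_nonneg_right _ hnpos.le
    exact div_le_div_of_nonneg_right hK hden.le
  -- lower bound for `γ`
  set γ := n - w - d * h * (2 / (2 * K - 1) * n) with hγ
  have hγ1 : (K - 1) / (2 * K - 1) * n - w ≤ γ := by
    have h0 : (K - 1) / (2 * K - 1) + K / (2 * K - 1) = 1 := by
      rw [← add_div, div_eq_one_iff_eq hden.ne']
      ring
    have : (K - 1) / (2 * K - 1) * n = n - K / (2 * K - 1) * n := by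
      have h1 : (K - 1) / (2 * K - 1) = 1 - K / (2 * K - 1) := by linarith
      rw [h1]
      ring
    linarith
  have hγ2 : (K - 1 - 1 / (16 * d)) / (2 * K - 1) * n ≤ γ := by
    have h1 : (K - 1 - 1 / (16 * d)) / (2 * K - 1) * n =
        (K - 1) / (2 * K - 1) * n - 1 / (16 * d * (2 * K - 1)) * n := by
      field_simp
    have h2 : w ≤ 1 / (16 * d * (2 * K - 1)) * n := by
      rw [div_mul_eq_mul_div, le_div_iff₀ (by positivity), one_mul]
      nlinarith [mul_nonneg hw hdpos.le]
    linarith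
  have h16 : 1 / (16 * d) ≤ 1 / 16 := by
    apply div_le_div_of_nonneg_left (by norm_num) (by norm_num)
    linarith
  have hβ : 0 < (K - 1 - 1 / (16 * d)) / (2 * K - 1) * n := by
    have : 0 < K - 1 - 1 / (16 * d) := by linarith
    positivity
  refine ⟨by linarith, ?_⟩
  have hsq : ((K - 1 - 1 / (16 * d)) / (2 * K - 1) * n) ^ 2 ≤ γ ^ 2 :=
    pow_le_pow_left₀ hβ.le hγ2 2
  have hmain : (d - 1) * h * (n * (2 / (2 * K - 1) * n)) <
      2 * ((K - 1 - 1 / (16 * d)) / (2 * K - 1) * n) ^ 2 := by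
    have e1 : (d - 1) * h * (n * (2 / (2 * K - 1) * n)) =
        (2 * (d - 1) * h * (2 * K - 1)) * (n / (2 * K - 1)) ^ 2 := by
      field_simp
    have e2 : 2 * ((K - 1 - 1 / (16 * d)) / (2 * K - 1) * n) ^ 2 =
        (2 * (K - 1 - 1 / (16 * d)) ^ 2) * (n / (2 * K - 1)) ^ 2 := by
      field_simp
    rw [e1, e2]
    apply mul_lt_mul_of_pos_right _ (by positivity)
    -- `2 (d-1) h (2K-1) < 2 (K - 1 - 1/(16 d))²`
    have h3 : d * (2 * (d - 1) * h * (2 * K - 1)) ≤ (d - 1) * K * (2 * K - 1) := by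
      have : d * (2 * (d - 1) * h * (2 * K - 1)) = (2 * d * h) * ((d - 1) * (2 * K - 1)) := by ring
      rw [this]
      have h4 : 0 ≤ (d - 1) * (2 * K - 1) := mul_nonneg (by linarith) hden.le
      calc (2 * d * h) * ((d - 1) * (2 * K - 1)) ≤ K * ((d - 1) * (2 * K - 1)) :=
            mul_le_mul_of_nonneg_right hK h4
        _ = _ := by ring
    have h5 : (d - 1) * K * (2 * K - 1) < d * (2 * (K - 1 - 1 / (16 * d)) ^ 2) := by
      have h6 : (K - 1) ^ 2 - (K - 1) / (8 * d) ≤ (K - 1 - 1 / (16 * d)) ^ 2 := by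
        have : (K - 1 - 1 / (16 * d)) ^ 2 =
            (K - 1) ^ 2 - (K - 1) / (8 * d) + (1 / (16 * d)) ^ 2 := by
          field_simp
          ring
        rw [this]
        have := sq_nonneg (1 / (16 * d))
        linarith
      have h7 : d * (2 * ((K - 1) ^ 2 - (K - 1) / (8 * d))) =
          2 * d * (K - 1) ^ 2 - (K - 1) / 4 := by
        field_simp
        ring
      have h8 : 2 * d * (K - 1) ^ 2 - (K - 1) / 4 ≤ d * (2 * (K - 1 - 1 / (16 * d)) ^ 2) := by
        rw [← h7]
        apply mul_le_mul_of_nonneg_left _ hdpos.le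
        linarith
      refine lt_of_lt_of_le ?_ h8
      nlinarith [mul_nonneg (by linarith : 0 ≤ K - 4 * d) (by linarith : 0 ≤ K)]
    nlinarith
  linarith

/-- **Positive theorem**, with the degeneracy of the core. -/
theorem positive_degenerate {V : Type} [Fintype V] (G : SimpleGraph V) (W : Finset V) (d : ℕ)
    (hW : TreeLikeOutside G W) (hdeg : DegenerateIn G W d)
    (h : (numEdgesIn G W).choose 2 ≤ numEdges G ∨
      2 * d * numEdgesIn G W ≤ numEdges G + 1) : ForcesRainbow G := by
  classical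
  by_cases h1 : (numEdgesIn G W).choose 2 ≤ numEdges G
  · exact positive G W (Fintype.card V) hW (by
      intro v _
      rw [← Nat.card_eq_fintype_card, ← Set.ncard_univ]
      exact Set.ncard_le_ncard (Set.subset_univ _)) (Or.inl h1)
  have h2 := h.resolve_left h1
  have hh : 2 ≤ numEdgesIn G W := by
    by_contra hc
    push Not at hc
    apply h1
    rw [Nat.choose_eq_zero_of_lt hc]
    exact Nat.zero_le _
  obtain ⟨r, hr, hd⟩ := hdeg
  have hd' : ∀ v ∈ W, (back G W r v).card ≤ d := by
    intro v hv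
    refine le_trans (le_of_eq ?_) (hd v hv)
    rw [← Set.ncard_coe_finset]
    congr 1
    ext u
    rw [mem_coe, mem_back]
    rfl
  have hd1 : 1 ≤ d := by
    by_contra hc
    have hd0 : d = 0 := by omega
    subst hd0
    -- no edges in the core
    have h3 : (edgesIn G W).Nonempty := by
      rw [← card_pos, card_edgesIn]
      omega
    obtain ⟨e, he⟩ := h3
    rw [mem_edgesIn] at he
    induction e using Sym2.ind with
    | _ a b =>
      have ha := he.2 a (Sym2.mem_mk_left a b)
      have hb := he.2 b (Sym2.mem_mk_right a b)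
      have hadj : G.Adj a b := he.1
      rcases lt_trichotomy (r a) (r b) with h | h | h
      · have h4 : a ∈ back G W r b := (mem_back G W r b a).2 ⟨ha, hadj.symm, h⟩
        have h5 := hd' b hb
        rw [Nat.le_zero, card_eq_zero] at h5
        rw [h5] at h4
        simp at h4
      · exact absurd (hr ha hb h) (G.ne_of_adj hadj)
      · have h4 : b ∈ back G W r a := (mem_back G W r a b).2 ⟨hb, hadj, h⟩
        have h5 := hd' a ha
        rw [Nat.le_zero, card_eq_zero] at h5
        rw [h5] at h4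
        simp at h4
  set e := numEdges G with he
  set K : ℝ := (e : ℝ) + 1 with hK
  have hdR : (1 : ℝ) ≤ d := by exact_mod_cast hd1
  have hhR : (2 : ℝ) ≤ (numEdgesIn G W : ℝ) := by exact_mod_cast hh
  have hKR : 2 * (d : ℝ) * (numEdgesIn G W : ℝ) ≤ K := by
    rw [hK]
    exact_mod_cast h2
  have hK4 : 4 ≤ K := by nlinarith
  have hK1 : 1 ≤ K := by linarith
  set p : ℝ := 2 / (2 * K - 1) with hp
  have hden : 0 < 2 * K - 1 := by linarith
  have hp0 : 0 < p := by positivity
  obtain ⟨N, hN⟩ := exists_nat_gt (64 * d * K * (W.card + 1) + 2 * K * Fintype.card V)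
  refine ⟨1 / (4 * K ^ 2), by positivity, N + 1, ?_⟩
  intro n hn c hc
  have hn0 : 0 < n := by omega
  have hnR : (64 * d * K * (W.card + 1) + 2 * K * Fintype.card V : ℝ) < n := by
    have : (N : ℝ) ≤ n := by exact_mod_cast (by omega : N ≤ n)
    linarith
  have hv0 : (0 : ℝ) ≤ (Fintype.card V : ℝ) := Nat.cast_nonneg _
  have hn1 : (64 * d * K * (W.card + 1) : ℝ) < n := by
    have : 0 ≤ 2 * K * Fintype.card V := by positivity
    linarith
  have hn2 : 2 * K * Fintype.card V < n := by
    have : (0 : ℝ) ≤ 64 * d * K * (W.card + 1) := by positivity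
    linarith
  have hnpos : (0 : ℝ) < n := by exact_mod_cast hn0
  have hKcast : (((numEdges G + 1 : ℕ)) : ℝ) = K := by
    rw [hK, he]
    push_cast
    ring
  have hup : ∀ i k, (colourDegree c i k : ℝ) + 1 ≤ p * n := by
    intro i k
    refine (colourDegree_le (Nat.succ_pos _) _ c hc i k).trans ?_
    rw [hKcast, hp]
    have hKne : K ≠ 0 := by linarith
    have e1 : (n : ℝ) - (K - 1) * ((1 - 1 / (4 * K ^ 2)) * n / K) =
        n * (1 / K + (K - 1) / (4 * K ^ 3)) := by
      field_simp
      ring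
    rw [e1, mul_comm (2 / (2 * K - 1)) (n : ℝ)]
    apply mul_le_mul_of_nonneg_left _ hnpos.le
    rw [div_add_div _ _ (by positivity) (by positivity), div_le_div_iff₀ (by positivity) hden]
    have hK0 : 0 < K := by linarith
    nlinarith [mul_pos hK0 hK0, mul_pos (mul_pos hK0 hK0) hK0,
      mul_nonneg (by linarith : 0 ≤ K - 1) hK0.le]
  have hlow : ∀ i k, Fintype.card V < colourDegree c i k := by
    intro i k
    have h1 := hc i k
    rw [hKcast] at h1
    have h2 : (n : ℝ) / (2 * K) ≤ (1 - 1 / (4 * K ^ 2)) * n / K := by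
      have hK0 : 0 < K := by linarith
      rw [div_le_div_iff₀ (by positivity) hK0]
      have h3 : (1 : ℝ) / 2 ≤ 1 - 1 / (4 * K ^ 2) := by
        have : 1 / (4 * K ^ 2) ≤ 1 / 4 := by
          apply div_le_div_of_nonneg_left (by norm_num) (by norm_num)
          nlinarith
        linarith
      nlinarith [mul_pos hnpos hK0]
    have h4 : (Fintype.card V : ℝ) < n / (2 * K) := by
      rw [lt_div_iff₀ (by positivity)]
      linarith
    have h5 : (Fintype.card V : ℝ) < colourDegree c i k := by linarith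
    exact_mod_cast h5
  obtain ⟨hγpos, hΦ⟩ := params K (W.card : ℝ) d (numEdgesIn G W) hdR hhR hKR
    (Nat.cast_nonneg _) n hn1
  have hd1' : (((d - 1 : ℕ)) : ℝ) = (d : ℝ) - 1 := by
    rw [Nat.cast_sub hd1]
    norm_num
  obtain ⟨f, hf1, hf2⟩ := core_degenerate G W c r hr d hd' _ (p * n) hγpos hup le_rfl
    (by rw [hd1']; exact hΦ) hn0
  have hVn : Fintype.card V ≤ n := by
    have : (Fintype.card V : ℝ) ≤ n := by nlinarith
    exact_mod_cast this
  obtain ⟨f₀, hf₀, hf₀'⟩ := extend_inj W f hf1 hVn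
  have hf₀'' : Set.InjOn (fun e : Sym2 V => c (e.map f₀)) (edgesIn G W : Set (Sym2 V)) := by
    intro a ha b hb hab
    have hmap : ∀ e ∈ edgesIn G W, e.map f₀ = e.map f := fun e he =>
      map_congr_of e f₀ f (fun x hx => hf₀' x (((mem_edgesIn G W e).1 he).2 x hx))
    apply hf2 ha hb
    simp only at hab ⊢
    rwa [hmap a ha, hmap b hb] at hab
  obtain ⟨g, hg1, hg2⟩ := extend G W hW c hlow f₀ hf₀ hf₀''
    ((univ : Finset V).card - W.card) univ (subset_univ _)
    (by have := card_le_card (subset_univ W); omega)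
  refine ⟨g, hg1, ?_⟩
  intro a ha b hb hab
  exact hg2 ((mem_edgesIn G univ a).2 ⟨ha, fun _ _ => mem_univ _⟩)
    ((mem_edgesIn G univ b).2 ⟨hb, fun _ _ => mem_univ _⟩) hab

end Pool.Agent.Lib.MP_b1acb3_co
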