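import Pool.Agent.Lib.MP_b1acb3_co.Neg

/-!
A parity obstruction: the iterated blow-up of the colouring `x + y` of the finite field with
`2 ^ k` elements.
-/

namespace Pool.Agent.Lib.MP_b1acb3_co

open Finset

/-- The partition `π` of the vertices has at most one edge of `G` between any two blocks. -/
def ThinPartition {V : Type} (G : SimpleGraph V) (π : Setoid V) : Prop :=
  ∀ x y x' y', G.Adj x y → G.Adj x' y' → π x x' → π y y' → ¬ π x y → x = x' ∧ y = y'

/-- For every partition of the vertices of `G` with at most one edge between any two blocks,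
every block induces a graph in which all degrees are even (the partition with one block shows that
all degrees of `G` are even). -/
def ThinEven {V : Type} (G : SimpleGraph V) : Prop :=
  ∀ π : Setoid V, ThinPartition G π → ∀ v, Even {u | G.Adj v u ∧ π v u}.ncard

section Lead

variable {F : Type} [Field F] {j : ℕ}

open Classical in
/-- The first nonzero coordinate. -/
noncomputable def lead (z : Fin j → F) : F :=
  if h : ∃ i, z i ≠ 0 ∧ ∀ l < i, z l = 0 then z h.choose else 0

theorem lead_eq (z : Fin j → F) (i : Fin j) (h1 : z i ≠ 0) (h2 : ∀ l < i, z l = 0) :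
    lead z = z i := by
  have h : ∃ i, z i ≠ 0 ∧ ∀ l < i, z l = 0 := ⟨i, h1, h2⟩
  unfold lead
  rw [dif_pos h]
  have h3 := h.choose_spec
  rcases lt_trichotomy h.choose i with h4 | h4 | h4
  · exact absurd (h2 _ h4) h3.1
  · rw [h4]
  · exact absurd (h3.2 _ h4) h1

theorem exists_first (z : Fin j → F) (hz : z ≠ 0) : ∃ i, z i ≠ 0 ∧ ∀ l < i, z l = 0 := by
  classical
  have h1 : ∃ i, z i ≠ 0 := by
    by_contra h
    push Not at h
    exact hz (funext h)
  set T : Finset (Fin j) := univ.filter (fun i => z i ≠ 0) with hT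
  have hTne : T.Nonempty := by
    obtain ⟨i, hi⟩ := h1
    exact ⟨i, by rw [hT, mem_filter]; exact ⟨mem_univ _, hi⟩⟩
  refine ⟨T.min' hTne, ?_, ?_⟩
  · exact (mem_filter.1 (T.min'_mem hTne)).2
  · intro l hl
    by_contra hcon
    have h2 : l ∈ T := by
      rw [hT, mem_filter]
      exact ⟨mem_univ _, hcon⟩
    exact absurd (T.min'_le l h2) (not_le.2 hl)

theorem lead_ne_zero (z : Fin j → F) (hz : z ≠ 0) : lead z ≠ 0 := by
  obtain ⟨i, h1, h2⟩ := exists_first z hz
  rw [lead_eq z i h1 h2]
  exact h1

theorem lead_zero : lead (0 : Fin j → F) = 0 := by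
  unfold lead
  rw [dif_neg]
  rintro ⟨i, hi, _⟩
  exact hi rfl

theorem lead_smul (u : F) (hu : u ≠ 0) (z : Fin j → F) : lead (u • z) = u * lead z := by
  by_cases hz : z = 0
  · rw [hz, smul_zero, lead_zero, mul_zero]
  · obtain ⟨i, h1, h2⟩ := exists_first z hz
    rw [lead_eq z i h1 h2, lead_eq (u • z) i]
    · rfl
    · exact mul_ne_zero hu h1
    · intro l hl
      show u * z l = 0
      rw [h2 l hl, mul_zero]

end Lead

section Sum

variable {V : Type} [Fintype V] {F : Type} [Field F] [CharP F 2]

/-- Sum of an edge function over a set of edges with even degrees. -/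
theorem sum_even [DecidableEq V] (S : Finset (Sym2 V)) (hS : ∀ e ∈ S, ¬ e.IsDiag)
    (heven : ∀ v, Even {u | s(v, u) ∈ S}.ncard) (g : V → F) (col : Sym2 V → F)
    (hcol : ∀ x y, s(x, y) ∈ S → col s(x, y) = g x + g y) :
    ∑ e ∈ S, col e = 0 := by
  classical
  have h1 : ∀ e ∈ S, col e = ∑ v : V, if v ∈ e then g v else 0 := by
    intro e he
    induction e using Sym2.ind with
    | _ x y =>
      have hxy : x ≠ y := by
        have := hS _ he
        rwa [Sym2.mk_isDiag_iff] at this
      rw [hcol x y he, ← sum_filter]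
      have : univ.filter (fun v => v ∈ s(x, y)) = {x, y} := by
        ext v
        simp [Sym2.mem_iff]
      rw [this, sum_pair hxy]
  rw [sum_congr rfl h1, sum_comm]
  apply sum_eq_zero
  intro v _
  rw [← sum_filter, sum_const]
  have h2 : (S.filter (fun e => v ∈ e)).card = {u | s(v, u) ∈ S}.ncard := by
    have h3 : S.filter (fun e => v ∈ e) =
        (univ.filter (fun u => s(v, u) ∈ S)).image (fun u => s(v, u)) := by
      ext e
      rw [mem_filter, mem_image]
      constructor
      · rintro ⟨he, hv⟩
        obtain ⟨u, rfl⟩ := Sym2.mem_iff_exists.1 hv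
        exact ⟨u, by rw [mem_filter]; exact ⟨mem_univ _, he⟩, rfl⟩
      · rintro ⟨u, hu, rfl⟩
        rw [mem_filter] at hu
        exact ⟨hu.2, Sym2.mem_mk_left v u⟩
    rw [h3, card_image_of_injective]
    · rw [← Set.ncard_coe_finset]
      congr 1
      ext u
      simp
    · intro a b hab
      exact Sym2.congr_right.1 hab
  rw [h2]
  obtain ⟨m, hm⟩ := heven v
  rw [hm, ← two_mul, mul_smul, two_nsmul, CharTwo.add_self_eq_zero]

end Sum

section Main

variable {V : Type} [Fintype V] {F : Type} [Field F] [CharP F 2] [Fintype F]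

/-- No map of `V` to `F ^ j` is rainbow on an even graph with `|F| - 2` edges. -/
theorem no_rainbow_even {j : ℕ} (G : SimpleGraph V)
    (hG : ThinEven G) (hF : numEdges G + 2 = Fintype.card F) (hF2 : 2 < Fintype.card F)
    (f : V → Fin j → F) (hf : Function.Injective f) (col : Sym2 V → F)
    (hcol : ∀ x y, col s(x, y) = lead (f x - f y)) : ¬ Set.InjOn col G.edgeSet := by
  classical
  intro hinj
  have hsub : ∀ a b : F, a - b = a + b := fun a b => CharTwo.sub_eq_add a b
  -- levels
  set E : Finset (Sym2 V) := edgesIn G univ with hE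
  have hmemE : ∀ e, e ∈ E ↔ e ∈ G.edgeSet := by
    intro e
    rw [hE, mem_edgesIn]
    exact ⟨fun h => h.1, fun h => ⟨h, fun _ _ => mem_univ _⟩⟩
  set lev : Fin j → Finset (Sym2 V) := fun i => E.filter (fun e =>
    ∃ x y, e = s(x, y) ∧ f x i ≠ f y i ∧ ∀ l < i, f x l = f y l) with hlev
  have hmemlev : ∀ i x y, s(x, y) ∈ lev i ↔ G.Adj x y ∧ f x i ≠ f y i ∧ ∀ l < i, f x l = f y l := by
    intro i x y
    simp only [hlev]
    rw [mem_filter, hmemE, SimpleGraph.mem_edgeSet]
    constructor
    · rintro ⟨h1, x', y', h2, h3, h4⟩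
      rw [Sym2.eq_iff] at h2
      rcases h2 with ⟨rfl, rfl⟩ | ⟨rfl, rfl⟩
      · exact ⟨h1, h3, h4⟩
      · exact ⟨h1, fun h => h3 h.symm, fun l hl => (h4 l hl).symm⟩
    · rintro ⟨h1, h2, h3⟩
      exact ⟨h1, x, y, rfl, h2, h3⟩
  have hcollev : ∀ i x y, s(x, y) ∈ lev i → col s(x, y) = f x i + f y i := by
    intro i x y h
    rw [hmemlev] at h
    rw [hcol, lead_eq (f x - f y) i]
    · exact hsub _ _
    · exact sub_ne_zero.2 h.2.1
    · intro l hl
      exact sub_eq_zero.2 (h.2.2 l hl)
  -- the partition by the first coordinates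
  let π : Fin j → Setoid V := fun i =>
    { r := fun x y => ∀ l < i, f x l = f y l
      iseqv := ⟨fun _ _ _ => rfl, fun h l hl => (h l hl).symm,
        fun h h' l hl => (h l hl).trans (h' l hl)⟩ }
  have hπ : ∀ i x y, (π i) x y ↔ ∀ l < i, f x l = f y l := fun i x y => Iff.rfl
  have hthin : ∀ i, ThinPartition G (π i) := by
    intro i x y x' y' hxy hxy' hxx hyy hnot
    rw [hπ] at hxx hyy hnot
    have hne : f x - f y ≠ 0 := sub_ne_zero.2 (fun h => (G.ne_of_adj hxy) (hf h))
    obtain ⟨t, ht1, ht2⟩ := exists_first _ hne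
    have ht1' : f x t ≠ f y t := sub_ne_zero.1 ht1
    have ht2' : ∀ l < t, f x l = f y l := fun l hl => sub_eq_zero.1 (ht2 l hl)
    have hti : t < i := by
      by_contra hcon
      exact hnot (fun l hl => ht2' l (lt_of_lt_of_le hl (not_lt.1 hcon)))
    have h1 : s(x, y) ∈ lev t := (hmemlev t x y).2 ⟨hxy, ht1', ht2'⟩
    have h2 : s(x', y') ∈ lev t := by
      rw [hmemlev]
      refine ⟨hxy', ?_, fun l hl => ?_⟩
      · rw [← hxx t hti, ← hyy t hti]
        exact ht1'
      · rw [← hxx l (lt_trans hl hti), ← hyy l (lt_trans hl hti)]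
        exact ht2' l hl
    have h3 : col s(x, y) = col s(x', y') := by
      rw [hcollev t x y h1, hcollev t x' y' h2, hxx t hti, hyy t hti]
    have h4 := hinj ((SimpleGraph.mem_edgeSet G).2 hxy) ((SimpleGraph.mem_edgeSet G).2 hxy') h3
    rw [Sym2.eq_iff] at h4
    rcases h4 with h5 | ⟨h5, h6⟩
    · exact h5
    · exfalso
      apply hnot
      intro l hl
      rw [h5]
      exact (hyy l hl).symm
  have hlevsum : ∀ i, ∑ e ∈ lev i, col e = 0 := by
    intro i
    set T : Finset (Sym2 V) := E.filter (fun e =>
      ∃ x y, e = s(x, y) ∧ ∀ l < i, f x l = f y l) with hT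
    have hmemT : ∀ x y, s(x, y) ∈ T ↔ G.Adj x y ∧ ∀ l < i, f x l = f y l := by
      intro x y
      rw [hT, mem_filter, hmemE, SimpleGraph.mem_edgeSet]
      constructor
      · rintro ⟨h1, x', y', h2, h3⟩
        rw [Sym2.eq_iff] at h2
        rcases h2 with ⟨rfl, rfl⟩ | ⟨rfl, rfl⟩
        · exact ⟨h1, h3⟩
        · exact ⟨h1, fun l hl => (h3 l hl).symm⟩
      · rintro ⟨h1, h2⟩
        exact ⟨h1, x, y, rfl, h2⟩
    set coli : Sym2 V → F := Sym2.lift ⟨fun x y => f x i + f y i, fun x y => add_comm _ _⟩
      with hcoli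
    have hcoli' : ∀ x y, coli s(x, y) = f x i + f y i := fun x y => rfl
    have h1 : ∑ e ∈ T, coli e = 0 := by
      apply sum_even T _ _ (fun v => f v i) coli (fun x y _ => hcoli' x y)
      · intro e he
        have : e ∈ G.edgeSet := (hmemE e).1 (mem_filter.1 he).1
        exact G.not_isDiag_of_mem_edgeSet this
      · intro v
        have h2 := hG (π i) (hthin i) v
        have h3 : {u | s(v, u) ∈ T} = {u | G.Adj v u ∧ (π i) v u} := by
          ext u
          exact hmemT v u
        rw [h3]
        exact h2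
    have h2 : lev i ⊆ T := by
      intro e he
      induction e using Sym2.ind with
      | _ x y =>
        rw [hmemlev] at he
        exact (hmemT x y).2 ⟨he.1, he.2.2⟩
    rw [← sum_subset h2 (f := coli)] at h1
    · rw [← h1]
      apply sum_congr rfl
      intro e he
      induction e using Sym2.ind with
      | _ x y => exact hcollev i x y he
    · intro e he hne
      induction e using Sym2.ind with
      | _ x y =>
        rw [hmemT] at he
        rw [hmemlev] at hne
        have h3 : f x i = f y i := by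
          by_contra h4
          exact hne ⟨he.1, h4, he.2⟩
        rw [hcoli', h3, CharTwo.add_self_eq_zero]
  -- the levels partition the edges
  have hpart : E = univ.biUnion lev := by
    ext e
    rw [mem_biUnion]
    constructor
    · intro he
      induction e using Sym2.ind with
      | _ x y =>
        have hxy : G.Adj x y := (hmemE _).1 he
        have hne : f x - f y ≠ 0 := sub_ne_zero.2 (fun h => (G.ne_of_adj hxy) (hf h))
        obtain ⟨t, ht1, ht2⟩ := exists_first _ hne
        exact ⟨t, mem_univ _, (hmemlev t x y).2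
          ⟨hxy, sub_ne_zero.1 ht1, fun l hl => sub_eq_zero.1 (ht2 l hl)⟩⟩
    · rintro ⟨i, _, hi⟩
      exact (mem_filter.1 hi).1
  have hdisj : Set.PairwiseDisjoint (↑(univ : Finset (Fin j))) lev := by
    intro a _ b _ hab
    rw [Function.onFun, Finset.disjoint_left]
    intro e h1 h2
    induction e using Sym2.ind with
    | _ x y =>
      rw [hmemlev] at h1 h2
      rcases lt_or_gt_of_ne hab with h | h
      · exact h1.2.1 (h2.2.2 a h)
      · exact h2.2.1 (h1.2.2 b h)
  have hsum0 : ∑ e ∈ E, col e = 0 := by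
    rw [hpart, sum_biUnion hdisj]
    exact sum_eq_zero (fun i _ => hlevsum i)
  -- the colours used
  have hinjE : Set.InjOn col (E : Set (Sym2 V)) := by
    intro a ha b hb hab
    exact hinj ((hmemE a).1 ha) ((hmemE b).1 hb) hab
  have hEcard : (E.image col).card = Fintype.card F - 2 := by
    rw [card_image_of_injOn hinjE, hE, card_edgesIn, numEdgesIn_univ]
    omega
  have h0 : (0 : F) ∉ E.image col := by
    rw [mem_image]
    rintro ⟨e, he, h⟩
    induction e using Sym2.ind with
    | _ x y =>
      have hxy : G.Adj x y := (hmemE _).1 he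
      rw [hcol] at h
      exact lead_ne_zero _ (sub_ne_zero.2 (fun h => (G.ne_of_adj hxy) (hf h))) h
  obtain ⟨z, hz1, hz2⟩ : ∃ z : F, z ≠ 0 ∧ (univ : Finset F) = insert 0 (insert z (E.image col)) := by
    have h1 : (insert (0 : F) (E.image col)).card = Fintype.card F - 1 := by
      rw [card_insert_of_notMem h0, hEcard]
      omega
    have h2 : ((insert (0 : F) (E.image col))ᶜ).card = 1 := by
      rw [card_compl, h1]
      omega
    obtain ⟨z, hz⟩ := card_eq_one.1 h2
    have h3 : z ∈ (insert (0 : F) (E.image col))ᶜ := by rw [hz]; exact mem_singleton_self z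
    rw [mem_compl, mem_insert, not_or] at h3
    refine ⟨z, h3.1, ?_⟩
    ext a
    rw [mem_insert, mem_insert]
    constructor
    · intro _
      by_cases ha : a ∈ insert (0 : F) (E.image col)
      · rw [mem_insert] at ha
        rcases ha with h | h
        · exact Or.inl h
        · exact Or.inr (Or.inr h)
      · have : a ∈ (insert (0 : F) (E.image col))ᶜ := mem_compl.2 ha
        rw [hz, mem_singleton] at this
        exact Or.inr (Or.inl this)
    · intro _
      exact mem_univ a
  have hzE : z ∉ E.image col := by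
    intro h
    have h1 : (univ : Finset F) = insert 0 (E.image col) := by
      rw [hz2, insert_eq_of_mem h]
    have h2 : (univ : Finset F).card = Fintype.card F - 1 := by
      rw [h1, card_insert_of_notMem h0, hEcard]
      omega
    rw [card_univ] at h2
    omega
  have htot : ∑ a : F, a = 0 := by
    have := FiniteField.sum_pow_lt_card_sub_one F 1 (by omega)
    simpa using this
  have h5 : ∑ a : F, a = z + ∑ a ∈ E.image col, a := by
    have h6 : ∑ a : F, a = ∑ a ∈ insert (0 : F) (insert z (E.image col)), a := by rw [← hz2]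
    rw [h6, sum_insert, sum_insert hzE, zero_add]
    rw [mem_insert, not_or]
    exact ⟨fun h => hz1 h.symm, h0⟩
  rw [sum_image hinjE, hsum0, add_zero, htot] at h5
  exact hz1 h5.symm

end Main

end Pool.Agent.Lib.MP_b1acb3_co
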