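import Mathlib

/-!
Definitions for problem MP_b1acb3_co (Erdős–Tuza: rainbow subgraphs in locally balanced
edge colourings).

An edge colouring of the complete graph `K_n` with `K` colours is a function
`c : Sym2 (Fin n) → Fin K`; the values on the diagonal `s(i, i)` play no role.
-/

namespace Pool.Agent.Lib.MP_b1acb3_co

open Classical

/-- The number of edges of `G`. -/
noncomputable def numEdges {V : Type} (G : SimpleGraph V) : ℕ := G.edgeSet.ncard

/-- The number of edges of `G` with both endpoints in `S`. -/
noncomputable def numEdgesIn {V : Type} (G : SimpleGraph V) (S : Finset V) : ℕ :=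
  {e ∈ G.edgeSet | ∀ x ∈ e, x ∈ S}.ncard

/-- The number of edges of `K_n` at the vertex `i` that have colour `k`. -/
noncomputable def colourDegree {n K : ℕ} (c : Sym2 (Fin n) → Fin K) (i : Fin n) (k : Fin K) : ℕ :=
  (Finset.univ.filter (fun j : Fin n => j ≠ i ∧ c s(i, j) = k)).card

/-- `c` is `ε`-balanced: every vertex has at least `(1 - ε) n / K` edges of every colour. -/
def IsBalanced (ε : ℝ) {n K : ℕ} (c : Sym2 (Fin n) → Fin K) : Prop :=
  ∀ (i : Fin n) (k : Fin K), (1 - ε) * (n : ℝ) / (K : ℝ) ≤ (colourDegree c i k : ℝ)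

/-- `c` contains a rainbow copy of `G`: an injective placement of the vertices of `G` for which
distinct edges of `G` receive distinct colours. -/
def HasRainbowCopy {V : Type} (G : SimpleGraph V) {n K : ℕ} (c : Sym2 (Fin n) → Fin K) : Prop :=
  ∃ f : V → Fin n, Function.Injective f ∧ Set.InjOn (fun e : Sym2 V => c (e.map f)) G.edgeSet

/-- The property asked for in Q1: for some `ε > 0` and `n₀`, every `ε`-balanced colouring of the
edges of `K_n`, `n ≥ n₀`, with exactly `e(G) + 1` colours contains a rainbow copy of `G`. -/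
def ForcesRainbow {V : Type} (G : SimpleGraph V) : Prop :=
  ∃ ε : ℝ, 0 < ε ∧ ∃ n₀ : ℕ, ∀ n : ℕ, n₀ ≤ n → ∀ c : Sym2 (Fin n) → Fin (numEdges G + 1),
    IsBalanced ε c → HasRainbowCopy G c

/-- For every `m ≥ 1` there is a colouring of the edges of `K_n`, `n = 4 (e(G) + 1) m + 1`, with
`e(G) + 1` colours, in which every vertex has exactly `4m = (n - 1) / (e(G) + 1)` edges of every
colour (so every colour class is a regular graph), without a rainbow copy of `G`. -/
def RegularCounterexamples {V : Type} (G : SimpleGraph V) : Prop :=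
  ∀ m : ℕ, 0 < m → ∃ c : Sym2 (Fin (4 * (numEdges G + 1) * m + 1)) → Fin (numEdges G + 1),
      (∀ i k, colourDegree c i k = 4 * m) ∧ ¬ HasRainbowCopy G c

/-- The part `G[W]` is `d`-degenerate: for some ordering of `W` (given by the ranks `r`) every
vertex of `W` has at most `d` neighbours in `W` that come before it. -/
def DegenerateIn {V : Type} (G : SimpleGraph V) (W : Finset V) (d : ℕ) : Prop :=
  ∃ r : V → ℕ, Set.InjOn r (W : Set V) ∧
    ∀ v ∈ W, {u | u ∈ W ∧ G.Adj v u ∧ r u < r v}.ncard ≤ d

/-- `W` contains all cycles of `G` and all paths between them (e.g. `W` is the vertex set of the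
2-core of `G`): every vertex set `X ⊋ W` has a vertex outside `W` with at most one neighbour in
`X`, i.e. `G` arises from `G[W]` by adding vertices one at a time, each with at most one
neighbour among the earlier ones. -/
def TreeLikeOutside {V : Type} (G : SimpleGraph V) (W : Finset V) : Prop :=
  ∀ X : Finset V, W ⊂ X → ∃ x ∈ X, x ∉ W ∧ {y | y ∈ X ∧ G.Adj x y}.ncard ≤ 1

end Pool.Agent.Lib.MP_b1acb3_co
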