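import Pool.Agent.Lib.MP_b1acb3_co.Pos

/-!
Vertex-by-vertex embedding of a `d`-degenerate core, controlled by a potential function.
-/

namespace Pool.Agent.Lib.MP_b1acb3_co

open Finset

section

set_option linter.unusedSectionVars false

variable {V : Type} [Fintype V] [DecidableEq V]

/-- Back neighbours of `v` in `W` with respect to the order `r`. -/
noncomputable def back (G : SimpleGraph V) (W : Finset V) (r : V → ℕ) (v : V) : Finset V := by
  classical
  exact W.filter (fun u => G.Adj v u ∧ r u < r v)

theorem mem_back (G : SimpleGraph V) (W : Finset V) (r : V → ℕ) (v u : V) :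
    u ∈ back G W r v ↔ u ∈ W ∧ G.Adj v u ∧ r u < r v := by
  classical
  simp [back]

/-- Ordered pairs of back neighbours. -/
noncomputable def pairs (G : SimpleGraph V) (W : Finset V) (r : V → ℕ) (v : V) :
    Finset (V × V) :=
  ((back G W r v) ×ˢ (back G W r v)).filter (fun x => r x.1 < r x.2)

/-- The vertices of `W` of rank less than `k`. -/
def low (W : Finset V) (r : V → ℕ) (k : ℕ) : Finset V := W.filter (fun v => r v < k)

theorem mem_low (W : Finset V) (r : V → ℕ) (k : ℕ) (v : V) :
    v ∈ low W r k ↔ v ∈ W ∧ r v < k := by
  unfold low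
  rw [mem_filter]

/-- The number of vertices that see `i` and `j` in the same colour. -/
def eqn {n K : ℕ} (c : Sym2 (Fin n) → Fin K) (i j : Fin n) : ℕ :=
  (univ.filter (fun y : Fin n => c s(i, y) = c s(j, y))).card

/-- Contribution of a pair of back neighbours to the potential. -/
noncomputable def phi {n K : ℕ} (c : Sym2 (Fin n) → Fin K) (r : V → ℕ) (γ D : ℝ) (k : ℕ)
    (f : V → Fin n) (j : V) (x : V × V) : ℝ :=
  if r j < k then (if c s(f x.1, f j) = c s(f x.2, f j) then 1 else 0)
  else if r x.2 < k then (eqn c (f x.1) (f x.2) : ℝ) / γ else (n : ℝ) * D / γ ^ 2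

/-- The potential. -/
noncomputable def Phi {n K : ℕ} (G : SimpleGraph V) (W : Finset V) (c : Sym2 (Fin n) → Fin K)
    (r : V → ℕ) (γ D : ℝ) (k : ℕ) (f : V → Fin n) : ℝ :=
  ∑ j ∈ W, ∑ x ∈ pairs G W r j, phi c r γ D k f j x

/-- Conditions kept by the embedding. -/
def Inv {n K : ℕ} (G : SimpleGraph V) (W : Finset V) (c : Sym2 (Fin n) → Fin K)
    (r : V → ℕ) (k : ℕ) (f : V → Fin n) : Prop :=
  Set.InjOn f (low W r k : Set V) ∧
  ∀ v ∈ low W r k, ∀ u ∈ back G W r v, ∀ e ∈ edgesIn G (low W r (r v)),
    c s(f u, f v) ≠ c (e.map f)

theorem card_colour_le {n K : ℕ} (c : Sym2 (Fin n) → Fin K) (D : ℝ)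
    (hD : ∀ i k, (colourDegree c i k : ℝ) + 1 ≤ D) (i : Fin n) (k : Fin K) :
    ((univ.filter (fun j : Fin n => c s(i, j) = k)).card : ℝ) ≤ D := by
  classical
  refine le_trans ?_ (hD i k)
  have h1 : univ.filter (fun j : Fin n => c s(i, j) = k) ⊆
      insert i (univ.filter (fun j : Fin n => j ≠ i ∧ c s(i, j) = k)) := by
    intro j hj
    rw [mem_filter] at hj
    rw [mem_insert, mem_filter]
    by_cases h : j = i
    · exact Or.inl h
    · exact Or.inr ⟨mem_univ _, h, hj.2⟩
  have h2 := (card_le_card h1).trans (card_insert_le _ _)
  have h3 : (univ.filter (fun j : Fin n => j ≠ i ∧ c s(i, j) = k)).card =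
      colourDegree c i k := by
    unfold colourDegree
    apply congrArg
    ext j
    simp only [mem_filter]
  rw [h3] at h2
  exact_mod_cast h2

theorem sum_eqn {n K : ℕ} (c : Sym2 (Fin n) → Fin K) (D : ℝ)
    (hD : ∀ i k, (colourDegree c i k : ℝ) + 1 ≤ D) (i : Fin n) :
    ∑ z : Fin n, (eqn c i z : ℝ) ≤ n * D := by
  have h1 : ∑ z : Fin n, (eqn c i z : ℝ) =
      ∑ y : Fin n, ((univ.filter (fun z : Fin n => c s(y, z) = c s(i, y))).card : ℝ) := by
    unfold eqn
    simp only [card_filter]
    push_cast
    rw [sum_comm]
    apply sum_congr rfl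
    intro y _
    apply sum_congr rfl
    intro z _
    have : (c s(i, y) = c s(z, y)) ↔ (c s(y, z) = c s(i, y)) := by
      rw [Sym2.eq_swap (a := z) (b := y)]
      exact eq_comm
    simp only [this]
  rw [h1]
  calc ∑ y : Fin n, ((univ.filter (fun z : Fin n => c s(y, z) = c s(i, y))).card : ℝ)
      ≤ ∑ _y : Fin n, D := sum_le_sum (fun y _ => card_colour_le c D hD y _)
    _ = n * D := by rw [sum_const, card_univ, Fintype.card_fin, nsmul_eq_mul]

/-- The step of the embedding. -/
theorem step {n K : ℕ} (G : SimpleGraph V) (W : Finset V) (c : Sym2 (Fin n) → Fin K)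
    (r : V → ℕ) (hr : Set.InjOn r (W : Set V)) (d : ℕ) (hd : ∀ v ∈ W, (back G W r v).card ≤ d)
    (γ D : ℝ) (hγ : 0 < γ)
    (hD : ∀ i k, (colourDegree c i k : ℝ) + 1 ≤ D)
    (hγ2 : γ ≤ n - W.card - (d : ℝ) * (numEdgesIn G W) * D)
    (k : ℕ) (f : V → Fin n) (hf : Inv G W c r k f) :
    ∃ f' : V → Fin n, Inv G W c r (k + 1) f' ∧
      Phi G W c r γ D (k + 1) f' ≤ Phi G W c r γ D k f := by
  classical
  by_cases hv : ∃ v ∈ W, r v = k
  · obtain ⟨v, hvW, hvk⟩ := hv
    have hlowk : low W r (k + 1) = insert v (low W r k) := by
      ext u
      rw [mem_insert, mem_low, mem_low]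
      constructor
      · rintro ⟨h1, h2⟩
        by_cases h3 : r u < k
        · exact Or.inr ⟨h1, h3⟩
        · left
          apply hr h1 hvW
          omega
      · rintro (rfl | ⟨h1, h2⟩)
        · exact ⟨hvW, by omega⟩
        · exact ⟨h1, by omega⟩
    have hvlow : v ∉ low W r k := by
      rw [mem_low]
      omega
    have hback : ∀ u ∈ back G W r v, u ∈ low W r k := by
      intro u hu
      rw [mem_back] at hu
      rw [mem_low]
      exact ⟨hu.1, by omega⟩
    -- used colours
    set U := (edgesIn G (low W r k)).image (fun e : Sym2 V => c (e.map f)) with hU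
    have hUcard : U.card ≤ numEdgesIn G W := by
      refine card_image_le.trans ?_
      rw [← card_edgesIn]
      apply card_le_card
      intro e he
      rw [mem_edgesIn] at he ⊢
      exact ⟨he.1, fun x hx => ((mem_low W r k x).1 (he.2 x hx)).1⟩
    -- candidates
    set Bad := (low W r k).image f ∪ (back G W r v).biUnion (fun u => U.biUnion (fun a =>
      univ.filter (fun z : Fin n => c s(f u, z) = a))) with hBad
    set Z := univ \ Bad with hZ
    have hBadcard : (Bad.card : ℝ) ≤ W.card + (d : ℝ) * (numEdgesIn G W) * D := by
      have hD0 : 0 ≤ D := by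
        have hn : 0 < n := by
          by_contra hcon
          have : n = 0 := by omega
          have h1 := f v
          rw [this] at h1
          exact h1.elim0
        by_cases hK : 0 < K
        · have := hD ⟨0, hn⟩ ⟨0, hK⟩
          have h2 : (0 : ℝ) ≤ (colourDegree c ⟨0, hn⟩ ⟨0, hK⟩ : ℝ) := Nat.cast_nonneg _
          linarith
        · exfalso
          have h1 := c s(f v, f v)
          have : K = 0 := by omega
          rw [this] at h1
          exact h1.elim0
      have h1 : (((low W r k).image f).card : ℝ) ≤ W.card := by
        exact_mod_cast card_image_le.trans (card_le_card (filter_subset _ _))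
      have h2 : (((back G W r v).biUnion (fun u => U.biUnion (fun a =>
          univ.filter (fun z : Fin n => c s(f u, z) = a)))).card : ℝ) ≤
          (d : ℝ) * (numEdgesIn G W) * D := by
        calc (((back G W r v).biUnion (fun u => U.biUnion (fun a =>
            univ.filter (fun z : Fin n => c s(f u, z) = a)))).card : ℝ)
            ≤ ((∑ u ∈ back G W r v, (U.biUnion (fun a =>
              univ.filter (fun z : Fin n => c s(f u, z) = a))).card : ℕ) : ℝ) := by
              exact_mod_cast card_biUnion_le
          _ = ∑ u ∈ back G W r v, ((U.biUnion (fun a =>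
              univ.filter (fun z : Fin n => c s(f u, z) = a))).card : ℝ) := by push_cast; rfl
          _ ≤ ∑ _u ∈ back G W r v, (numEdgesIn G W : ℝ) * D := by
              apply sum_le_sum
              intro u _
              calc ((U.biUnion (fun a =>
                  univ.filter (fun z : Fin n => c s(f u, z) = a))).card : ℝ)
                  ≤ ((∑ a ∈ U, (univ.filter (fun z : Fin n => c s(f u, z) = a)).card : ℕ) : ℝ) := by
                    exact_mod_cast card_biUnion_le
                _ = ∑ a ∈ U, ((univ.filter (fun z : Fin n => c s(f u, z) = a)).card : ℝ) := by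
                    push_cast; rfl
                _ ≤ ∑ _a ∈ U, D := sum_le_sum (fun a _ => card_colour_le c D hD _ a)
                _ = (U.card : ℝ) * D := by rw [sum_const, nsmul_eq_mul]
                _ ≤ (numEdgesIn G W : ℝ) * D := by
                    apply mul_le_mul_of_nonneg_right _ hD0
                    exact_mod_cast hUcard
          _ = ((back G W r v).card : ℝ) * ((numEdgesIn G W : ℝ) * D) := by
              rw [sum_const, nsmul_eq_mul]
          _ ≤ (d : ℝ) * ((numEdgesIn G W : ℝ) * D) := by
              apply mul_le_mul_of_nonneg_right _ (by positivity)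
              exact_mod_cast hd v hvW
          _ = _ := by ring
      have h3 : (Bad.card : ℝ) ≤ (((low W r k).image f).card : ℝ) +
          (((back G W r v).biUnion (fun u => U.biUnion (fun a =>
            univ.filter (fun z : Fin n => c s(f u, z) = a)))).card : ℝ) := by
        exact_mod_cast card_union_le _ _
      linarith
    have hZcard : γ ≤ (Z.card : ℝ) := by
      have h1 : Z.card + Bad.card = n := by
        rw [hZ, card_sdiff_add_card_eq_card (subset_univ _), card_univ, Fintype.card_fin]
      have h2 : (Z.card : ℝ) + Bad.card = n := by exact_mod_cast h1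
      linarith
    have hZpos : (0 : ℝ) < Z.card := lt_of_lt_of_le hγ hZcard
    -- the new maps
    have hinv : ∀ z ∈ Z, Inv G W c r (k + 1) (Function.update f v z) := by
      intro z hz
      rw [hZ, mem_sdiff, hBad, mem_union, not_or, mem_image, mem_biUnion] at hz
      obtain ⟨_, hz1, hz2⟩ := hz
      push Not at hz1 hz2
      have hupd : ∀ u ∈ low W r k, Function.update f v z u = f u := by
        intro u hu
        apply Function.update_of_ne
        rintro rfl
        exact hvlow hu
      constructor
      · rw [hlowk, coe_insert]
        intro a ha b hb hab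
        rw [Set.mem_insert_iff, mem_coe] at ha hb
        rcases ha with rfl | ha
        · rcases hb with rfl | hb
          · rfl
          · rw [Function.update_self, hupd b hb] at hab
            exact absurd hab.symm (hz1 b hb)
        · rcases hb with rfl | hb
          · rw [Function.update_self, hupd a ha] at hab
            exact absurd hab (hz1 a ha)
          · rw [hupd a ha, hupd b hb] at hab
            exact hf.1 ha hb hab
      · intro w hw u hu e he
        have hle : low W r (r w) ⊆ low W r k := by
          intro x hx
          rw [mem_low] at hx ⊢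
          rw [mem_low] at hw
          exact ⟨hx.1, by omega⟩
        have hemap : e.map (Function.update f v z) = e.map f := by
          apply map_congr_of
          intro x hx
          apply hupd
          exact hle (((mem_edgesIn G _ e).1 he).2 x hx)
        have huw : u ∈ low W r (r w) := by
          rw [mem_back] at hu
          rw [mem_low]
          exact ⟨hu.1, hu.2.2⟩
        rw [hemap, hupd u (hle huw)]
        rw [hlowk, mem_insert] at hw
        rcases hw with rfl | hw
        · rw [Function.update_self]
          intro hcon
          have h5 := hz2 u hu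
          rw [mem_biUnion] at h5
          apply h5
          refine ⟨c (e.map f), ?_, ?_⟩
          · rw [hU, mem_image]
            rw [hvk] at he
            exact ⟨e, he, rfl⟩
          · rw [mem_filter]
            exact ⟨mem_univ _, hcon⟩
        · rw [hupd w hw]
          exact hf.2 w hw u hu e he
    -- average of the potential
    have havg : ∑ z ∈ Z, Phi G W c r γ D (k + 1) (Function.update f v z) ≤
        ∑ _z ∈ Z, Phi G W c r γ D k f := by
      unfold Phi
      rw [sum_comm]
      rw [sum_comm (s := Z)]
      apply sum_le_sum
      intro j hj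
      rw [sum_comm]
      rw [sum_comm (s := Z)]
      apply sum_le_sum
      intro x hx
      rw [pairs, mem_filter, mem_product, mem_back, mem_back] at hx
      obtain ⟨⟨⟨hx1W, hx1a, hx1r⟩, ⟨hx2W, hx2a, hx2r⟩⟩, hx12⟩ := hx
      have hne : ∀ u, r u < r v → u ≠ v := by
        rintro u hu rfl
        exact lt_irrefl _ hu
      rw [sum_const, nsmul_eq_mul]
      rcases lt_trichotomy (r j) k with hjk | hjk | hjk
      · -- old
        have : ∀ z ∈ Z, phi c r γ D (k + 1) (Function.update f v z) j x = phi c r γ D k f j x := by
          intro z _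
          unfold phi
          rw [if_pos (by omega), if_pos hjk, Function.update_of_ne (hne _ (by omega)),
            Function.update_of_ne (hne _ (by omega)), Function.update_of_ne (hne _ (by omega))]
        rw [sum_congr rfl this, sum_const, nsmul_eq_mul]
      · -- j = v
        have hjv : j = v := hr hj hvW (by omega)
        subst hjv
        have h1 : ∀ z ∈ Z, phi c r γ D (k + 1) (Function.update f j z) j x =
            if c s(f x.1, z) = c s(f x.2, z) then 1 else 0 := by
          intro z _
          unfold phi
          rw [if_pos (by omega), Function.update_self, Function.update_of_ne (hne _ (by omega)),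
            Function.update_of_ne (hne _ (by omega))]
        have h2 : phi c r γ D k f j x = (eqn c (f x.1) (f x.2) : ℝ) / γ := by
          unfold phi
          rw [if_neg (by omega), if_pos (by omega)]
        rw [sum_congr rfl h1, h2]
        have h3 : ∑ z ∈ Z, (if c s(f x.1, z) = c s(f x.2, z) then (1 : ℝ) else 0) ≤
            (eqn c (f x.1) (f x.2) : ℝ) := by
          unfold eqn
          rw [card_filter]
          push_cast
          apply sum_le_sum_of_subset_of_nonneg (subset_univ _)
          intro z _ _
          split_ifs <;> norm_num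
        refine h3.trans ?_
        rw [mul_div_assoc', le_div_iff₀ hγ, mul_comm]
        exact mul_le_mul_of_nonneg_right hZcard (Nat.cast_nonneg _)
      · rcases lt_trichotomy (r x.2) k with hyk | hyk | hyk
        · -- both embedded already
          have : ∀ z ∈ Z, phi c r γ D (k + 1) (Function.update f v z) j x =
              phi c r γ D k f j x := by
            intro z _
            unfold phi
            have a1 : ¬ r j < k + 1 := by omega
            have a2 : ¬ r j < k := by omega
            have a3 : r x.2 < k + 1 := by omega
            rw [if_neg a1, if_neg a2, if_pos a3, if_pos hyk,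
              Function.update_of_ne (hne _ (by omega)), Function.update_of_ne (hne _ (by omega))]
          rw [sum_congr rfl this, sum_const, nsmul_eq_mul]
        · -- y = v
          have hyv : x.2 = v := hr hx2W hvW (by omega)
          have h1 : ∀ z ∈ Z, phi c r γ D (k + 1) (Function.update f v z) j x =
              (eqn c (f x.1) z : ℝ) / γ := by
            intro z _
            unfold phi
            have a1 : ¬ r j < k + 1 := by omega
            have a3 : r x.2 < k + 1 := by omega
            rw [if_neg a1, if_pos a3, hyv, Function.update_self,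
              Function.update_of_ne (hne _ (by omega))]
          have h2 : phi c r γ D k f j x = (n : ℝ) * D / γ ^ 2 := by
            unfold phi
            rw [if_neg (by omega), if_neg (by omega)]
          rw [sum_congr rfl h1, h2, ← sum_div]
          have h3 : ∑ z ∈ Z, (eqn c (f x.1) z : ℝ) ≤ n * D := by
            refine le_trans ?_ (sum_eqn c D hD (f x.1))
            apply sum_le_sum_of_subset_of_nonneg (subset_univ _)
            intro z _ _
            exact Nat.cast_nonneg _
          have hnD : 0 ≤ (n : ℝ) * D := by
            refine le_trans ?_ h3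
            exact sum_nonneg (fun z _ => Nat.cast_nonneg _)
          calc (∑ z ∈ Z, (eqn c (f x.1) z : ℝ)) / γ ≤ (n * D) / γ :=
                div_le_div_of_nonneg_right h3 hγ.le
            _ = γ * ((n : ℝ) * D / γ ^ 2) := by
                field_simp
            _ ≤ (Z.card : ℝ) * ((n : ℝ) * D / γ ^ 2) := by
                apply mul_le_mul_of_nonneg_right hZcard
                positivity
        · -- nothing embedded
          have : ∀ z ∈ Z, phi c r γ D (k + 1) (Function.update f v z) j x =
              phi c r γ D k f j x := by
            intro z _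
            unfold phi
            have a1 : ¬ r j < k + 1 := by omega
            have a2 : ¬ r j < k := by omega
            have a3 : ¬ r x.2 < k + 1 := by omega
            have a4 : ¬ r x.2 < k := by omega
            rw [if_neg a1, if_neg a2, if_neg a3, if_neg a4]
          rw [sum_congr rfl this, sum_const, nsmul_eq_mul]
    obtain ⟨z, hz, hzle⟩ : ∃ z ∈ Z, Phi G W c r γ D (k + 1) (Function.update f v z) ≤
        Phi G W c r γ D k f := by
      have hne : Z.Nonempty := by
        rw [← card_pos]
        exact_mod_cast hZpos
      exact exists_le_of_sum_le hne havg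
    exact ⟨Function.update f v z, hinv z hz, hzle⟩
  · push Not at hv
    have hlowk : low W r (k + 1) = low W r k := by
      ext u
      rw [mem_low, mem_low]
      constructor
      · rintro ⟨h1, h2⟩
        have := hv u h1
        exact ⟨h1, by omega⟩
      · rintro ⟨h1, h2⟩
        exact ⟨h1, by omega⟩
    refine ⟨f, ?_, ?_⟩
    · unfold Inv
      rw [hlowk]
      exact hf
    · apply le_of_eq
      unfold Phi
      apply sum_congr rfl
      intro j hj
      apply sum_congr rfl
      intro x hx
      rw [pairs, mem_filter, mem_product, mem_back, mem_back] at hx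
      have h1 := hv j hj
      have h2 := hv x.2 hx.1.2.1
      unfold phi
      by_cases h3 : r j < k
      · rw [if_pos (by omega), if_pos h3]
      · rw [if_neg (by omega), if_neg h3]
        by_cases h4 : r x.2 < k
        · rw [if_pos (by omega), if_pos h4]
        · rw [if_neg (by omega), if_neg h4]

/-- The number of pairs. -/
theorem sum_pairs_le (G : SimpleGraph V) (W : Finset V) (r : V → ℕ)
    (hr : Set.InjOn r (W : Set V)) (d : ℕ) (hd : ∀ v ∈ W, (back G W r v).card ≤ d) :
    2 * ∑ j ∈ W, (pairs G W r j).card ≤ (d - 1) * numEdgesIn G W := by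
  classical
  have h1 : ∀ j ∈ W, 2 * (pairs G W r j).card ≤ (d - 1) * (back G W r j).card := by
    intro j hj
    have h2 : 2 * (pairs G W r j).card ≤ (back G W r j).offDiag.card := by
      have h3 : (pairs G W r j).card = ((pairs G W r j).image Prod.swap).card := by
        rw [card_image_of_injective _ Prod.swap_injective]
      have h4 : pairs G W r j ∪ (pairs G W r j).image Prod.swap ⊆ (back G W r j).offDiag := by
        intro x hx
        rw [mem_union, mem_image] at hx
        rw [mem_offDiag]
        rcases hx with hx | ⟨y, hy, rfl⟩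
        · rw [pairs, mem_filter, mem_product] at hx
          refine ⟨hx.1.1, hx.1.2, ?_⟩
          intro h
          rw [h] at hx
          exact lt_irrefl _ hx.2
        · rw [pairs, mem_filter, mem_product] at hy
          refine ⟨hy.1.2, hy.1.1, ?_⟩
          intro h
          simp only [Prod.fst_swap, Prod.snd_swap] at h
          rw [h] at hy
          exact lt_irrefl _ hy.2
      have h5 : Disjoint (pairs G W r j) ((pairs G W r j).image Prod.swap) := by
        rw [disjoint_left]
        intro x hx hx'
        rw [mem_image] at hx'
        obtain ⟨y, hy, rfl⟩ := hx'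
        rw [pairs, mem_filter] at hx hy
        simp only [Prod.fst_swap, Prod.snd_swap] at hx
        omega
      calc 2 * (pairs G W r j).card =
          (pairs G W r j).card + ((pairs G W r j).image Prod.swap).card := by
            rw [← h3]
            ring
        _ = (pairs G W r j ∪ (pairs G W r j).image Prod.swap).card :=
            (card_union_of_disjoint h5).symm
        _ ≤ _ := card_le_card h4
    refine h2.trans ?_
    rw [offDiag_card]
    have h6 := hd j hj
    rcases Nat.eq_zero_or_pos (back G W r j).card with h0 | h0
    · rw [h0]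
      omega
    · have : (back G W r j).card * (back G W r j).card - (back G W r j).card =
          ((back G W r j).card - 1) * (back G W r j).card := by
        rw [Nat.sub_mul, one_mul]
      rw [this]
      apply Nat.mul_le_mul_right
      omega
  have h2 : ∑ j ∈ W, (back G W r j).card = numEdgesIn G W := by
    rw [← card_edgesIn]
    have h3 : (edgesIn G W).card = (W.sigma (fun j => back G W r j)).card := by
      symm
      apply card_bij (fun (x : Σ _ : V, V) _ => s(x.1, x.2))
      · intro x hx
        rw [mem_sigma, mem_back] at hx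
        rw [mem_edgesIn]
        refine ⟨hx.2.2.1, ?_⟩
        intro y hy
        rw [Sym2.mem_iff] at hy
        rcases hy with rfl | rfl
        · exact hx.1
        · exact hx.2.1
      · rintro ⟨a, b⟩ hab ⟨a', b'⟩ hab' h
        rw [mem_sigma, mem_back] at hab hab'
        simp only at hab hab' h
        rw [Sym2.eq_iff] at h
        rcases h with ⟨rfl, rfl⟩ | ⟨rfl, rfl⟩
        · rfl
        · exfalso
          omega
      · intro e he
        rw [mem_edgesIn] at he
        induction e using Sym2.ind with
        | _ a b =>
          have ha := he.2 a (Sym2.mem_mk_left a b)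
          have hb := he.2 b (Sym2.mem_mk_right a b)
          have hadj : G.Adj a b := he.1
          rcases lt_trichotomy (r a) (r b) with h | h | h
          · refine ⟨⟨b, a⟩, ?_, Sym2.eq_swap⟩
            rw [mem_sigma, mem_back]
            exact ⟨hb, ha, hadj.symm, h⟩
          · exact absurd (hr ha hb h) (G.ne_of_adj hadj)
          · refine ⟨⟨a, b⟩, ?_, rfl⟩
            rw [mem_sigma, mem_back]
            exact ⟨ha, hb, hadj, h⟩
    rw [h3, card_sigma]
  calc 2 * ∑ j ∈ W, (pairs G W r j).card = ∑ j ∈ W, 2 * (pairs G W r j).card := by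
        rw [mul_sum]
    _ ≤ ∑ j ∈ W, (d - 1) * (back G W r j).card := sum_le_sum h1
    _ = (d - 1) * numEdgesIn G W := by rw [← mul_sum, h2]

/-- Embedding of a degenerate core. -/
theorem core_degenerate {n K : ℕ} (G : SimpleGraph V) (W : Finset V)
    (c : Sym2 (Fin n) → Fin K)
    (r : V → ℕ) (hr : Set.InjOn r (W : Set V)) (d : ℕ) (hd : ∀ v ∈ W, (back G W r v).card ≤ d)
    (γ D : ℝ) (hγ : 0 < γ)
    (hD : ∀ i k, (colourDegree c i k : ℝ) + 1 ≤ D)
    (hγ2 : γ ≤ n - W.card - (d : ℝ) * (numEdgesIn G W) * D)
    (hΦ : ((d - 1 : ℕ) : ℝ) * (numEdgesIn G W) * (n * D) < 2 * γ ^ 2) (hn : 0 < n) :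
    ∃ f : V → Fin n, Set.InjOn f (W : Set V) ∧
      Set.InjOn (fun e : Sym2 V => c (e.map f)) (edgesIn G W : Set (Sym2 V)) := by
  classical
  have hmain : ∀ k : ℕ, ∃ f : V → Fin n, Inv G W c r k f ∧ Phi G W c r γ D k f < 1 := by
    intro k
    induction k with
    | zero =>
      refine ⟨fun _ => ⟨0, hn⟩, ⟨?_, ?_⟩, ?_⟩
      · intro a ha
        rw [mem_coe, mem_low] at ha
        exact absurd ha.2 (Nat.not_lt_zero _)
      · intro v hv
        rw [mem_low] at hv
        exact absurd hv.2 (Nat.not_lt_zero _)
      · have h1 : Phi G W c r γ D 0 (fun _ => ⟨0, hn⟩) =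
            ((∑ j ∈ W, (pairs G W r j).card : ℕ) : ℝ) * ((n : ℝ) * D / γ ^ 2) := by
          unfold Phi phi
          simp only [Nat.not_lt_zero, if_false, sum_const, nsmul_eq_mul]
          push_cast
          rw [sum_mul]
        rw [h1]
        have h2 := sum_pairs_le G W r hr d hd
        have h3 : 2 * ((∑ j ∈ W, (pairs G W r j).card : ℕ) : ℝ) ≤
            ((d - 1 : ℕ) : ℝ) * (numEdgesIn G W) := by exact_mod_cast h2
        have hnD : 0 ≤ (n : ℝ) * D := by
          refine le_trans ?_ (sum_eqn c D hD ⟨0, hn⟩)
          exact sum_nonneg (fun z _ => Nat.cast_nonneg _)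
        rw [← mul_div_assoc, div_lt_one (by positivity)]
        have h4 := mul_le_mul_of_nonneg_right h3 hnD
        linarith
    | succ k ih =>
      obtain ⟨f, hf1, hf2⟩ := ih
      obtain ⟨f', hf1', hf2'⟩ := step G W c r hr d hd γ D hγ hD hγ2 k f hf1
      exact ⟨f', hf1', lt_of_le_of_lt hf2' hf2⟩
  -- take k large
  obtain ⟨M, hM⟩ : ∃ M : ℕ, ∀ v ∈ W, r v < M := by
    refine ⟨(W.sup r) + 1, fun v hv => ?_⟩
    have := le_sup (f := r) hv
    omega
  obtain ⟨f, hf1, hf2⟩ := hmain M
  have hlowM : low W r M = W := by
    ext v
    rw [mem_low]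
    exact ⟨fun h => h.1, fun h => ⟨h, hM v h⟩⟩
  refine ⟨f, ?_, ?_⟩
  · have := hf1.1
    rwa [hlowM] at this
  · -- no conflicts
    have hnc : ∀ j ∈ W, ∀ x ∈ pairs G W r j, c s(f x.1, f j) ≠ c s(f x.2, f j) := by
      intro j hj x hx hcon
      have hnonneg : ∀ j' ∈ W, ∀ x' ∈ pairs G W r j', 0 ≤ phi c r γ D M f j' x' := by
        intro j' hj' x' _
        unfold phi
        rw [if_pos (hM j' hj')]
        split_ifs <;> norm_num
      have h1 : phi c r γ D M f j x = 1 := by
        unfold phi
        rw [if_pos (hM j hj), if_pos hcon]
      have h2 : (1 : ℝ) ≤ ∑ x ∈ pairs G W r j, phi c r γ D M f j x := by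
        rw [← h1]
        exact single_le_sum (fun x' hx' => hnonneg j hj x' hx') hx
      have h3 : ∑ x ∈ pairs G W r j, phi c r γ D M f j x ≤ Phi G W c r γ D M f := by
        unfold Phi
        exact single_le_sum (f := fun j => ∑ x ∈ pairs G W r j, phi c r γ D M f j x)
          (fun j' hj' => sum_nonneg (hnonneg j' hj')) hj
      linarith
    -- every edge has a later endpoint
    have hedge : ∀ e ∈ edgesIn G W, ∃ j ∈ W, ∃ u ∈ back G W r j, e = s(u, j) := by
      intro e he
      rw [mem_edgesIn] at he
      induction e using Sym2.ind with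
      | _ a b =>
        have ha := he.2 a (Sym2.mem_mk_left a b)
        have hb := he.2 b (Sym2.mem_mk_right a b)
        have hadj : G.Adj a b := he.1
        rcases lt_trichotomy (r a) (r b) with h | h | h
        · exact ⟨b, hb, a, (mem_back G W r b a).2 ⟨ha, hadj.symm, h⟩, rfl⟩
        · exact absurd (hr ha hb h) (G.ne_of_adj hadj)
        · exact ⟨a, ha, b, (mem_back G W r a b).2 ⟨hb, hadj, h⟩, Sym2.eq_swap⟩
    have hlt : ∀ j ∈ W, ∀ u ∈ back G W r j, ∀ j' ∈ W, ∀ u' ∈ back G W r j', r j' < r j →
        c (s(u, j).map f) ≠ c (s(u', j').map f) := by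
      intro j hj u hu j' hj' u' hu' hjj
      rw [Sym2.map_mk]
      apply hf1.2 j (by rw [hlowM]; exact hj) u hu
      rw [mem_edgesIn]
      rw [mem_back] at hu'
      refine ⟨hu'.2.1.symm, ?_⟩
      intro y hy
      rw [Sym2.mem_iff] at hy
      rw [mem_low]
      rcases hy with rfl | rfl
      · exact ⟨hu'.1, by omega⟩
      · exact ⟨hj', hjj⟩
    intro e he e' he' hee
    simp only at hee
    obtain ⟨j, hj, u, hu, rfl⟩ := hedge e he
    obtain ⟨j', hj', u', hu', rfl⟩ := hedge e' he'
    rcases lt_trichotomy (r j) (r j') with h | h | h
    · exact absurd hee.symm (hlt j' hj' u' hu' j hj u hu h)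
    · have hjj : j = j' := hr hj hj' h
      subst hjj
      rcases lt_trichotomy (r u) (r u') with h' | h' | h'
      · exfalso
        apply hnc j hj (u, u') _ hee
        rw [pairs, mem_filter, mem_product]
        exact ⟨⟨hu, hu'⟩, h'⟩
      · have : u = u' := hr ((mem_back G W r j u).1 hu).1 ((mem_back G W r j u').1 hu').1 h'
        rw [this]
      · exfalso
        apply hnc j hj (u', u) _ hee.symm
        rw [pairs, mem_filter, mem_product]
        exact ⟨⟨hu', hu⟩, h'⟩
    · exact absurd hee (hlt j hj u hu j' hj' u' hu' h)

end

end Pool.Agent.Lib.MP_b1acb3_co
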