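import Mathlib

/-!
A uniformly random `2`-to-`1` map is injective on a given `h`-set with probability at most
`exp (- h (h - 1) / (4 K))`.
-/

namespace Pool.Agent.Lib.MP_b1acb3_co

open Finset

/-- `σ` followed by the first projection is injective on `T`. -/
def PGood {K : ℕ} (σ : Equiv.Perm (Fin K × Fin 2)) (T : Finset (Fin K × Fin 2)) : Prop :=
  Set.InjOn (fun x => (σ x).1) (T : Set (Fin K × Fin 2))

open Classical in
theorem card_pgood_eq {K : ℕ} (T T' : Finset (Fin K × Fin 2)) (h : T.card = T'.card) :
    (univ.filter (fun σ : Equiv.Perm (Fin K × Fin 2) => PGood σ T)).card =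
    (univ.filter (fun σ : Equiv.Perm (Fin K × Fin 2) => PGood σ T')).card := by
  let e : T ≃ T' := Finset.equivOfCardEq h
  let e' : {x // x ∈ T} ≃ {x // x ∈ T'} := e
  let τ : Equiv.Perm (Fin K × Fin 2) := e'.extendSubtype
  have hτ : ∀ x, x ∈ T → τ x ∈ T' := fun x hx => e'.extendSubtype_mem x hx
  have hτ' : ∀ x, x ∉ T → τ x ∉ T' := fun x hx => e'.extendSubtype_not_mem x hx
  refine card_bij' (fun σ _ => σ * τ⁻¹) (fun σ _ => σ * τ) ?_ ?_ ?_ ?_
  · intro σ hσ
    rw [mem_filter] at hσ ⊢
    refine ⟨mem_univ _, ?_⟩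
    intro x hx y hy hxy
    have hx' : τ⁻¹ x ∈ (T : Set (Fin K × Fin 2)) := by
      by_contra hc
      apply hτ' (τ⁻¹ x) hc
      have h0 : τ (τ⁻¹ x) = x := Equiv.apply_symm_apply τ x
      rw [h0]
      exact hx
    have hy' : τ⁻¹ y ∈ (T : Set (Fin K × Fin 2)) := by
      by_contra hc
      apply hτ' (τ⁻¹ y) hc
      have h0 : τ (τ⁻¹ y) = y := Equiv.apply_symm_apply τ y
      rw [h0]
      exact hy
    have := hσ.2 hx' hy' hxy
    exact τ⁻¹.injective this
  · intro σ hσ
    rw [mem_filter] at hσ ⊢
    refine ⟨mem_univ _, ?_⟩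
    intro x hx y hy hxy
    have := hσ.2 (hτ x hx) (hτ y hy) hxy
    exact τ.injective this
  · intro σ _
    simp
  · intro σ _
    simp

/-- Partial transversals of size `h`. -/
def transv (K h : ℕ) : Finset (Finset (Fin K × Fin 2)) :=
  (powersetCard h univ).filter
    (fun T => ∀ x ∈ T, ∀ y ∈ T, x.1 = y.1 → x = y)

theorem card_transv_le (K h : ℕ) : (transv K h).card ≤ K.choose h * 2 ^ h := by
  have h1 : (transv K h).card ≤
      ((powersetCard h (univ : Finset (Fin K))).sigma (fun J => J.powerset)).card := by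
    apply card_le_card_of_injOn
      (fun T => ⟨T.image Prod.fst, (T.filter (fun x => x.2 = 1)).image Prod.fst⟩)
    · intro T hT
      rw [mem_coe, transv, mem_filter, mem_powersetCard] at hT
      rw [mem_coe, mem_sigma, mem_powersetCard, mem_powerset]
      refine ⟨⟨subset_univ _, ?_⟩, image_subset_image (filter_subset _ _)⟩
      rw [← hT.1.2]
      apply card_image_of_injOn
      intro x hx y hy hxy
      exact hT.2 x hx y hy hxy
    · intro T hT T' hT' hTT
      rw [mem_coe, transv, mem_filter, mem_powersetCard] at hT hT'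
      simp only [Sigma.mk.injEq, heq_eq_eq] at hTT
      obtain ⟨ha, hb⟩ := hTT
      have key : ∀ (A B : Finset (Fin K × Fin 2)), (∀ x ∈ A, ∀ y ∈ A, x.1 = y.1 → x = y) →
          (∀ x ∈ B, ∀ y ∈ B, x.1 = y.1 → x = y) →
          A.image Prod.fst = B.image Prod.fst →
          (A.filter (fun x => x.2 = 1)).image Prod.fst =
            (B.filter (fun x => x.2 = 1)).image Prod.fst → ∀ x ∈ A, x ∈ B := by
        intro A B hA hB h1 h2 x hx
        have hx1 : x.1 ∈ B.image Prod.fst := by
          rw [← h1]
          exact mem_image_of_mem _ hx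
        obtain ⟨y, hy, hyx⟩ := mem_image.1 hx1
        by_cases hx2 : x.2 = 1
        · have hx3 : x.1 ∈ (B.filter (fun x => x.2 = 1)).image Prod.fst := by
            rw [← h2]
            exact mem_image_of_mem _ (mem_filter.2 ⟨hx, hx2⟩)
          obtain ⟨z, hz, hzx⟩ := mem_image.1 hx3
          rw [mem_filter] at hz
          have : z = x := Prod.ext hzx (hz.2.trans hx2.symm)
          rw [← this]
          exact hz.1
        · by_cases hy2 : y.2 = 1
          · exfalso
            have hy3 : y.1 ∈ (A.filter (fun x => x.2 = 1)).image Prod.fst := by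
              rw [h2]
              exact mem_image_of_mem _ (mem_filter.2 ⟨hy, hy2⟩)
            obtain ⟨z, hz, hzy⟩ := mem_image.1 hy3
            rw [mem_filter] at hz
            have : z = x := hA z hz.1 x hx (hzy.trans hyx)
            rw [this] at hz
            exact hx2 hz.2
          · have : y = x := by
              apply Prod.ext hyx
              have hx4 : x.2 = 0 := by omega
              have hy4 : y.2 = 0 := by omega
              rw [hx4, hy4]
            rw [← this]
            exact hy
      ext x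
      exact ⟨fun hx => key T T' hT.2 hT'.2 ha hb x hx,
        fun hx => key T' T hT'.2 hT.2 ha.symm hb.symm x hx⟩
  refine h1.trans ?_
  rw [card_sigma]
  calc ∑ J ∈ powersetCard h (univ : Finset (Fin K)), (J.powerset).card
      = ∑ J ∈ powersetCard h (univ : Finset (Fin K)), 2 ^ h := by
        apply sum_congr rfl
        intro J hJ
        rw [card_powerset, (mem_powersetCard.1 hJ).2]
    _ = K.choose h * 2 ^ h := by
        rw [sum_const, card_powersetCard, card_univ, Fintype.card_fin, smul_eq_mul]
    _ ≤ _ := le_rfl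

open Classical in
theorem card_pgood_mul {K : ℕ} (T : Finset (Fin K × Fin 2)) :
    (2 * K).choose T.card * (univ.filter (fun σ : Equiv.Perm (Fin K × Fin 2) => PGood σ T)).card =
    (2 * K).factorial * (transv K T.card).card := by
  have h1 : ∑ T' ∈ powersetCard T.card (univ : Finset (Fin K × Fin 2)),
      (univ.filter (fun σ : Equiv.Perm (Fin K × Fin 2) => PGood σ T')).card =
      ∑ σ : Equiv.Perm (Fin K × Fin 2),
        ((powersetCard T.card (univ : Finset (Fin K × Fin 2))).filter
          (fun T' => PGood σ T')).card := by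
    simp only [card_filter]
    rw [sum_comm]
  have h2 : ∑ T' ∈ powersetCard T.card (univ : Finset (Fin K × Fin 2)),
      (univ.filter (fun σ : Equiv.Perm (Fin K × Fin 2) => PGood σ T')).card =
      (2 * K).choose T.card *
        (univ.filter (fun σ : Equiv.Perm (Fin K × Fin 2) => PGood σ T)).card := by
    rw [sum_congr rfl (fun T' hT' => card_pgood_eq T' T (mem_powersetCard.1 hT').2)]
    rw [sum_const, card_powersetCard, card_univ, Fintype.card_prod, Fintype.card_fin,
      Fintype.card_fin, smul_eq_mul, mul_comm K 2]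
  have h3 : ∀ σ : Equiv.Perm (Fin K × Fin 2),
      ((powersetCard T.card (univ : Finset (Fin K × Fin 2))).filter
          (fun T' => PGood σ T')).card = (transv K T.card).card := by
    intro σ
    refine card_bij' (fun T' _ => T'.map σ.toEmbedding) (fun T' _ => T'.map σ.symm.toEmbedding)
      ?_ ?_ ?_ ?_
    · intro T' hT'
      rw [mem_filter, mem_powersetCard] at hT'
      rw [transv, mem_filter, mem_powersetCard]
      refine ⟨⟨subset_univ _, ?_⟩, ?_⟩
      · rw [card_map]
        exact hT'.1.2
      · intro x hx y hy hxy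
        rw [mem_map] at hx hy
        obtain ⟨x', hx', rfl⟩ := hx
        obtain ⟨y', hy', rfl⟩ := hy
        have := hT'.2 hx' hy' hxy
        rw [this]
    · intro T' hT'
      rw [transv, mem_filter, mem_powersetCard] at hT'
      rw [mem_filter, mem_powersetCard]
      refine ⟨⟨subset_univ _, ?_⟩, ?_⟩
      · rw [card_map]
        exact hT'.1.2
      · intro x hx y hy hxy
        rw [mem_coe, mem_map] at hx hy
        obtain ⟨x', hx', rfl⟩ := hx
        obtain ⟨y', hy', rfl⟩ := hy
        simp only [Equiv.coe_toEmbedding, Equiv.apply_symm_apply] at hxy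
        rw [hT'.2 x' hx' y' hy' hxy]
    · intro T' _
      ext x
      simp
    · intro T' _
      ext x
      simp
  rw [← h2, h1, sum_congr rfl (fun σ _ => h3 σ), sum_const, card_univ, Fintype.card_perm,
    Fintype.card_prod, Fintype.card_fin, Fintype.card_fin, smul_eq_mul, mul_comm K 2]

theorem descFactorial_exp {K : ℕ} (hK : 0 < K) (h : ℕ) (hh : h ≤ K) :
    ((K.descFactorial h : ℕ) : ℝ) * 2 ^ h * Real.exp ((h : ℝ) * (h - 1) / (4 * K)) ≤
      (((2 * K).descFactorial h : ℕ) : ℝ) := by
  induction h with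
  | zero => simp
  | succ h ih =>
    have hlt : h < K := hh
    have ih' := ih hlt.le
    have hK' : (0 : ℝ) < K := by exact_mod_cast hK
    have hhK : (h : ℝ) + 1 ≤ K := by exact_mod_cast hh
    have hh0 : (0 : ℝ) ≤ h := Nat.cast_nonneg h
    rw [Nat.descFactorial_succ, Nat.descFactorial_succ]
    have e1 : (((h + 1 : ℕ) : ℝ)) * (((h + 1 : ℕ) : ℝ) - 1) / (4 * K) =
        (h : ℝ) * (h - 1) / (4 * K) + h / (2 * K) := by
      push_cast
      field_simp
      ring
    rw [e1, Real.exp_add, Nat.cast_mul, Nat.cast_mul, Nat.cast_sub hlt.le,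
      Nat.cast_sub (by omega : h ≤ 2 * K)]
    push_cast
    have hstep : 2 * ((K : ℝ) - h) * Real.exp ((h : ℝ) / (2 * K)) ≤ 2 * K - h := by
      have hy : (0 : ℝ) < 2 * K - h := by linarith
      have h1 : 1 - (h : ℝ) / (2 * K - h) ≤ Real.exp (-((h : ℝ) / (2 * K - h))) := by
        have := Real.add_one_le_exp (-((h : ℝ) / (2 * K - h)))
        linarith
      have h2 : Real.exp (-((h : ℝ) / (2 * K - h))) ≤ Real.exp (-((h : ℝ) / (2 * K))) := by
        apply Real.exp_le_exp.2
        apply neg_le_neg
        apply div_le_div_of_nonneg_left hh0 hy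
        linarith
      have h3 : 2 * ((K : ℝ) - h) = (2 * K - h) * (1 - (h : ℝ) / (2 * K - h)) := by
        field_simp
        ring
      calc 2 * ((K : ℝ) - h) * Real.exp ((h : ℝ) / (2 * K))
          = (2 * K - h) * (1 - (h : ℝ) / (2 * K - h)) * Real.exp ((h : ℝ) / (2 * K)) := by rw [h3]
        _ ≤ (2 * K - h) * Real.exp (-((h : ℝ) / (2 * K))) * Real.exp ((h : ℝ) / (2 * K)) := by
            apply mul_le_mul_of_nonneg_right _ (Real.exp_pos _).le
            apply mul_le_mul_of_nonneg_left (h1.trans h2) hy.le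
        _ = 2 * K - h := by
            rw [mul_assoc, ← Real.exp_add]
            simp
    have hpos : (0 : ℝ) ≤ (((2 * K).descFactorial h : ℕ) : ℝ) := Nat.cast_nonneg _
    have hKh : (0 : ℝ) ≤ 2 * ((K : ℝ) - h) * Real.exp ((h : ℝ) / (2 * K)) := by
      apply mul_nonneg _ (Real.exp_pos _).le
      linarith
    calc ((K : ℝ) - h) * ((K.descFactorial h : ℕ) : ℝ) * 2 ^ (h + 1) *
          (Real.exp ((h : ℝ) * (h - 1) / (4 * K)) * Real.exp ((h : ℝ) / (2 * K)))
        = (((K.descFactorial h : ℕ) : ℝ) * 2 ^ h * Real.exp ((h : ℝ) * (h - 1) / (4 * K))) *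
          (2 * ((K : ℝ) - h) * Real.exp ((h : ℝ) / (2 * K))) := by ring
      _ ≤ (((2 * K).descFactorial h : ℕ) : ℝ) * (2 * K - h) :=
          mul_le_mul ih' hstep hKh hpos
      _ = _ := by ring

open Classical in
/-- The main bound. -/
theorem perm_bound {K : ℕ} (T : Finset (Fin K × Fin 2)) :
    (2 * K).choose T.card *
      (univ.filter (fun σ : Equiv.Perm (Fin K × Fin 2) => PGood σ T)).card ≤
      (2 * K).factorial * (K.choose T.card * 2 ^ T.card) := by
  rw [card_pgood_mul T]
  exact Nat.mul_le_mul_left _ (card_transv_le K T.card)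

/-- Estimate of the probability. -/
theorem choose_exp {K : ℕ} (hK : 0 < K) (h : ℕ) :
    (K.choose h : ℝ) * 2 ^ h * Real.exp ((h : ℝ) * (h - 1) / (4 * K))
        ≤ ((2 * K).choose h : ℝ) := by
  by_cases hh : h ≤ K
  · have h3 := descFactorial_exp hK h hh
    have hf : (0 : ℝ) < (h.factorial : ℝ) := by exact_mod_cast Nat.factorial_pos _
    have e1 : ((K.descFactorial h : ℕ) : ℝ) = h.factorial * K.choose h := by
      exact_mod_cast Nat.descFactorial_eq_factorial_mul_choose K h
    have e2 : (((2 * K).descFactorial h : ℕ) : ℝ) =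
        h.factorial * (2 * K).choose h := by
      exact_mod_cast Nat.descFactorial_eq_factorial_mul_choose (2 * K) h
    rw [e1, e2] at h3
    have h5 : (h.factorial : ℝ) * ((K.choose h : ℝ) * 2 ^ h *
        Real.exp ((h : ℝ) * (h - 1) / (4 * K))) ≤
        (h.factorial : ℝ) * ((2 * K).choose h : ℝ) := by
      calc _ = (h.factorial : ℝ) * K.choose h * 2 ^ h *
            Real.exp ((h : ℝ) * (h - 1) / (4 * K)) := by ring
        _ ≤ _ := h3
    exact le_of_mul_le_mul_left h5 hf
  · rw [Nat.choose_eq_zero_of_lt (by omega)]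
    simp only [Nat.cast_zero, zero_mul]
    exact Nat.cast_nonneg _

end Pool.Agent.Lib.MP_b1acb3_co
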