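import Pool.Agent.Lib.MP_b1acb3_co.Defs
import Pool.Agent.Lib.MP_b1acb3_co.Perm
import Pool.Agent.Lib.MP_b1acb3_co.Circ

/-!
Union bound over all placements of the vertices of `S` on the circle.
-/

namespace Pool.Agent.Lib.MP_b1acb3_co

open Finset

section

set_option linter.unusedSectionVars false

variable {V : Type} [Fintype V]

/-- Extension of a code to all vertices. -/
noncomputable def ext {N w : ℕ} (S : Finset V) (κ : S → Fin N × Fin w) (v : V) : ℕ × ℕ := by
  classical
  exact if h : v ∈ S then (((κ ⟨v, h⟩).1 : ℕ), ((κ ⟨v, h⟩).2 : ℕ)) else (0, 0)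

theorem ext_of_mem {N w : ℕ} (S : Finset V) (κ : S → Fin N × Fin w) {v : V} (h : v ∈ S) :
    ext S κ v = (((κ ⟨v, h⟩).1 : ℕ), ((κ ⟨v, h⟩).2 : ℕ)) := by
  unfold ext
  rw [dif_pos h]

/-- Class of an edge under a code. -/
noncomputable def ecl {N w : ℕ} (K : ℕ) (S : Finset V) (κ : S → Fin N × Fin w) : Sym2 V → ℕ :=
  Sym2.lift ⟨fun u x => cc K (ext S κ u) (ext S κ x), fun _ _ => cc_symm K _ _⟩

/-- The edges of `G` inside `S`. -/
noncomputable def edgesIn (G : SimpleGraph V) (S : Finset V) : Finset (Sym2 V) := by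
  classical
  exact univ.filter (fun e => e ∈ G.edgeSet ∧ ∀ x ∈ e, x ∈ S)

theorem mem_edgesIn (G : SimpleGraph V) (S : Finset V) (e : Sym2 V) :
    e ∈ edgesIn G S ↔ e ∈ G.edgeSet ∧ ∀ x ∈ e, x ∈ S := by
  classical
  simp [edgesIn]

theorem card_edgesIn (G : SimpleGraph V) (S : Finset V) :
    (edgesIn G S).card = numEdgesIn G S := by
  unfold numEdgesIn
  rw [← Set.ncard_coe_finset]
  congr 1
  ext e
  rw [mem_coe, mem_edgesIn]
  exact Iff.rfl

/-- `σ` is bad for the code `κ`. -/
def PBad {N w K : ℕ} (hK : 0 < K) (G : SimpleGraph V) (S : Finset V)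
    (σ : Equiv.Perm (Fin K × Fin 2)) (κ : S → Fin N × Fin w) : Prop :=
  Set.InjOn (fun e => (σ (toCl K hK (ecl K S κ e))).1) (edgesIn G S : Set (Sym2 V))

open Classical in
theorem card_bad {N w K : ℕ} (hK : 0 < K) (G : SimpleGraph V) (S : Finset V)
    (κ : S → Fin N × Fin w) :
    (2 * K).choose (numEdgesIn G S) *
      (univ.filter (fun σ : Equiv.Perm (Fin K × Fin 2) => PBad hK G S σ κ)).card ≤
      (2 * K).factorial * (K.choose (numEdgesIn G S) * 2 ^ (numEdgesIn G S)) := by
  by_cases hne : ∃ σ : Equiv.Perm (Fin K × Fin 2), PBad hK G S σ κ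
  · obtain ⟨σ₀, hσ₀⟩ := hne
    have hinj : Set.InjOn (fun e => toCl K hK (ecl K S κ e)) (edgesIn G S : Set (Sym2 V)) := by
      intro e he e' he' hee
      apply hσ₀ he he'
      simp only at hee ⊢
      rw [hee]
    have hcard : ((edgesIn G S).image (fun e => toCl K hK (ecl K S κ e))).card =
        numEdgesIn G S := by
      rw [card_image_of_injOn hinj, card_edgesIn]
    have h1 := perm_bound ((edgesIn G S).image (fun e => toCl K hK (ecl K S κ e)))
    rw [hcard] at h1
    refine le_trans ?_ h1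
    apply Nat.mul_le_mul_left
    apply card_le_card
    intro σ hσ
    rw [mem_filter] at hσ ⊢
    refine ⟨mem_univ _, ?_⟩
    intro x hx y hy hxy
    rw [mem_coe, mem_image] at hx hy
    obtain ⟨e, he, rfl⟩ := hx
    obtain ⟨e', he', rfl⟩ := hy
    have : e = e' := hσ.2 he he' hxy
    rw [this]
  · push Not at hne
    have h0 : univ.filter (fun σ : Equiv.Perm (Fin K × Fin 2) => PBad hK G S σ κ) = ∅ :=
      filter_eq_empty_iff.2 (fun σ _ => hne σ)
    rw [h0, card_empty, mul_zero]
    exact Nat.zero_le _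

/-- Some `σ` is good for all codes. -/
theorem exists_good {K : ℕ} (hK : 0 < K) (G : SimpleGraph V) (S : Finset V) (N : ℕ)
    (h : (N * S.card) ^ S.card * (K.choose (numEdgesIn G S) * 2 ^ (numEdgesIn G S)) <
      (2 * K).choose (numEdgesIn G S)) :
    ∃ σ : Equiv.Perm (Fin K × Fin 2), ∀ κ : S → Fin N × Fin S.card, ¬ PBad hK G S σ κ := by
  classical
  by_contra hcon
  push Not at hcon
  have h1 : (univ : Finset (Equiv.Perm (Fin K × Fin 2))) ⊆
      (univ : Finset (S → Fin N × Fin S.card)).biUnion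
        (fun κ => univ.filter (fun σ : Equiv.Perm (Fin K × Fin 2) => PBad hK G S σ κ)) := by
    intro σ _
    obtain ⟨κ, hκ⟩ := hcon σ
    rw [mem_biUnion]
    exact ⟨κ, mem_univ _, mem_filter.2 ⟨mem_univ _, hκ⟩⟩
  have h2 := (card_le_card h1).trans card_biUnion_le
  rw [card_univ, Fintype.card_perm, Fintype.card_prod, Fintype.card_fin, Fintype.card_fin,
    mul_comm K 2] at h2
  have h3 : (2 * K).choose (numEdgesIn G S) * (2 * K).factorial ≤
      (2 * K).factorial *
        ((N * S.card) ^ S.card * (K.choose (numEdgesIn G S) * 2 ^ (numEdgesIn G S))) := by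
    calc (2 * K).choose (numEdgesIn G S) * (2 * K).factorial ≤
        (2 * K).choose (numEdgesIn G S) * ∑ κ : S → Fin N × Fin S.card,
        (univ.filter (fun σ : Equiv.Perm (Fin K × Fin 2) => PBad hK G S σ κ)).card :=
          Nat.mul_le_mul_left _ h2
      _ = ∑ κ : S → Fin N × Fin S.card, (2 * K).choose (numEdgesIn G S) *
        (univ.filter (fun σ : Equiv.Perm (Fin K × Fin 2) => PBad hK G S σ κ)).card := by
          rw [mul_sum]
      _ ≤ ∑ _κ : S → Fin N × Fin S.card,
          (2 * K).factorial * (K.choose (numEdgesIn G S) * 2 ^ (numEdgesIn G S)) :=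
          sum_le_sum (fun κ _ => card_bad hK G S κ)
      _ = _ := by
          rw [sum_const, card_univ, Fintype.card_fun, Fintype.card_prod, Fintype.card_fin,
            Fintype.card_fin, Fintype.card_coe, smul_eq_mul]
          ring
  have h4 : (2 * K).factorial * (2 * K).choose (numEdgesIn G S) ≤ (2 * K).factorial *
        ((N * S.card) ^ S.card * (K.choose (numEdgesIn G S) * 2 ^ (numEdgesIn G S))) := by
    rw [mul_comm]
    exact h3
  have h5 := Nat.le_of_mul_le_mul_left h4 (Nat.factorial_pos _)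
  omega

/-- The number of vertices of `S` with smaller offset. -/
noncomputable def rk {n : ℕ} (S : Finset V) (m : ℕ) (f : V → Fin n) (v : V) : ℕ :=
  (S.filter (fun y => (f y : ℕ) % m < (f v : ℕ) % m)).card

theorem rk_lt {n : ℕ} (S : Finset V) (m : ℕ) (f : V → Fin n) {v : V} (hv : v ∈ S) :
    rk S m f v < S.card := by
  apply card_lt_card
  refine ⟨filter_subset _ _, fun h => ?_⟩
  have := h hv
  rw [mem_filter] at this
  omega

theorem rk_le_iff {n : ℕ} (S : Finset V) (m : ℕ) (f : V → Fin n) {u v : V} (hu : u ∈ S)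
    (hv : v ∈ S) : rk S m f u ≤ rk S m f v ↔ (f u : ℕ) % m ≤ (f v : ℕ) % m := by
  constructor
  · intro h
    by_contra hc
    push Not at hc
    have : rk S m f v < rk S m f u := by
      apply card_lt_card
      refine ⟨?_, fun h => ?_⟩
      · intro y hy
        rw [mem_filter] at hy ⊢
        exact ⟨hy.1, by omega⟩
      · have := h (mem_filter.2 ⟨hv, hc⟩)
        rw [mem_filter] at this
        omega
    omega
  · intro h
    apply card_le_card
    intro y hy
    rw [mem_filter] at hy ⊢
    exact ⟨hy.1, by omega⟩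

/-- A `σ` that is good for all codes gives colourings without a rainbow copy. -/
theorem no_rainbow {K : ℕ} (hK : 0 < K) (G : SimpleGraph V) (S : Finset V)
    (σ : Equiv.Perm (Fin K × Fin 2))
    (hσ : ∀ κ : S → Fin (4 * K + 1) × Fin S.card, ¬ PBad hK G S σ κ) {m : ℕ} (hm : 0 < m) :
    ¬ HasRainbowCopy G (circ K m hK hm σ) := by
  rintro ⟨f, hf, hinj⟩
  have hcell : ∀ v, (f v : ℕ) / m < 4 * K + 1 := by
    intro v
    have := (f v).2
    rw [Nat.div_lt_iff_lt_mul hm]
    calc (f v : ℕ) < 4 * K * m + 1 := this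
      _ ≤ (4 * K + 1) * m := by
        rw [Nat.add_mul]
        omega
  let κ : S → Fin (4 * K + 1) × Fin S.card := fun v =>
    (⟨(f v : ℕ) / m, hcell v⟩, ⟨rk S m f v, rk_lt S m f v.2⟩)
  apply hσ κ
  have hcol : ∀ e ∈ edgesIn G S, circ K m hK hm σ (e.map f) =
      (σ (toCl K hK (ecl K S κ e))).1 := by
    intro e he
    rw [mem_edgesIn] at he
    obtain ⟨he1, he2⟩ := he
    induction e using Sym2.ind with
    | _ u v =>
      have hu : u ∈ S := he2 u (Sym2.mem_mk_left u v)
      have hv : v ∈ S := he2 v (Sym2.mem_mk_right u v)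
      have huv : u ≠ v := G.ne_of_adj he1
      have hfuv : (f u : ℕ) ≠ f v := fun h => huv (hf (Fin.ext h))
      rw [Sym2.map_mk, circ_mk]
      unfold col
      have h1 := cls_eq_cc (K := K) hm (f u).2 (f v).2 hfuv (rk_le_iff S m f hu hv)
        (rk_le_iff S m f hv hu)
      rw [h1]
      have h2 : ecl K S κ s(u, v) = cc K (ext S κ u) (ext S κ v) := rfl
      rw [h2, ext_of_mem S κ hu, ext_of_mem S κ hv]
  intro e he e' he' hee
  simp only at hee
  rw [mem_coe] at he he'
  rw [← hcol e he, ← hcol e' he'] at hee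
  exact hinj ((mem_edgesIn G S e).1 he).1 ((mem_edgesIn G S e').1 he').1 hee

/-- **Negative theorem**, exact form. -/
theorem negative (G : SimpleGraph V) (S : Finset V)
    (h : ((4 * (numEdges G + 1) + 1) * S.card) ^ S.card *
      ((numEdges G + 1).choose (numEdgesIn G S) * 2 ^ (numEdgesIn G S)) <
      (2 * (numEdges G + 1)).choose (numEdgesIn G S)) :
    RegularCounterexamples G := by
  intro m hm
  have hK : 0 < numEdges G + 1 := Nat.succ_pos _
  obtain ⟨σ, hσ⟩ := exists_good hK G S (4 * (numEdges G + 1) + 1) h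
  refine ⟨circ (numEdges G + 1) m hK hm σ, ?_, no_rainbow hK G S σ hσ hm⟩
  intro i k
  unfold colourDegree
  exact circ_regular hK hm σ i k

/-- **Negative theorem**, logarithmic form. -/
theorem negative_log (G : SimpleGraph V) (S : Finset V)
    (h : 4 * ((numEdges G : ℝ) + 1) * S.card * Real.log ((4 * (numEdges G : ℝ) + 5) * S.card) <
      (numEdgesIn G S : ℝ) * (numEdgesIn G S - 1)) :
    RegularCounterexamples G := by
  apply negative G S
  set K := numEdges G + 1 with hKdef
  have hK : 0 < K := Nat.succ_pos _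
  have hS : 0 < S.card := by
    rcases Nat.eq_zero_or_pos S.card with h0 | h0
    · exfalso
      have h1 : (edgesIn G S).card = 0 := by
        rw [card_eq_zero, eq_empty_iff_forall_notMem]
        intro e he
        rw [mem_edgesIn] at he
        induction e using Sym2.ind with
        | _ u v =>
          have := he.2 u (Sym2.mem_mk_left u v)
          rw [card_eq_zero] at h0
          rw [h0] at this
          exact absurd this (notMem_empty u)
      rw [card_edgesIn] at h1
      rw [h0, h1] at h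
      simp at h
    · exact h0
  have hpow : (((4 * K + 1) * S.card : ℕ) : ℝ) ^ S.card <
      Real.exp ((numEdgesIn G S : ℝ) * (numEdgesIn G S - 1) / (4 * K)) := by
    have hbase : (0 : ℝ) < (((4 * K + 1) * S.card : ℕ) : ℝ) := by
      exact_mod_cast Nat.mul_pos (Nat.succ_pos _) hS
    rw [← Real.exp_log hbase, ← Real.exp_nat_mul, Real.exp_lt_exp]
    have hK' : (0 : ℝ) < 4 * (K : ℝ) := by positivity
    rw [lt_div_iff₀ hK']
    have e1 : (((4 * K + 1) * S.card : ℕ) : ℝ) = (4 * (numEdges G : ℝ) + 5) * S.card := by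
      rw [hKdef]
      push_cast
      ring
    rw [e1]
    have e2 : (K : ℝ) = (numEdges G : ℝ) + 1 := by
      rw [hKdef]
      push_cast
      ring
    rw [e2]
    calc _ = 4 * ((numEdges G : ℝ) + 1) * S.card *
          Real.log ((4 * (numEdges G : ℝ) + 5) * S.card) := by ring
      _ < _ := h
  have h2 := choose_exp hK (numEdgesIn G S)
  have hle : numEdgesIn G S ≤ K := by
    have h3 : numEdgesIn G S ≤ numEdges G := by
      rw [← card_edgesIn]
      unfold numEdges
      rw [← Set.ncard_coe_finset]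
      apply Set.ncard_le_ncard _ (Set.toFinite _)
      intro e he
      rw [mem_coe, mem_edgesIn] at he
      exact he.1
    omega
  have hc : (0 : ℝ) < (K.choose (numEdgesIn G S) : ℝ) * 2 ^ (numEdgesIn G S) := by
    have : 0 < K.choose (numEdgesIn G S) := Nat.choose_pos hle
    positivity
  have h4 : ((((4 * K + 1) * S.card) ^ S.card *
      (K.choose (numEdgesIn G S) * 2 ^ (numEdgesIn G S)) : ℕ) : ℝ) <
      (((2 * K).choose (numEdgesIn G S) : ℕ) : ℝ) := by
    rw [Nat.cast_mul, Nat.cast_pow, Nat.cast_mul (K.choose (numEdgesIn G S)), Nat.cast_pow 2]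
    calc (((4 * K + 1) * S.card : ℕ) : ℝ) ^ S.card *
        ((K.choose (numEdgesIn G S) : ℝ) * ((2 : ℕ) : ℝ) ^ (numEdgesIn G S))
        < Real.exp ((numEdgesIn G S : ℝ) * (numEdgesIn G S - 1) / (4 * K)) *
          ((K.choose (numEdgesIn G S) : ℝ) * ((2 : ℕ) : ℝ) ^ (numEdgesIn G S)) := by
          apply mul_lt_mul_of_pos_right hpow
          push_cast
          exact hc
      _ ≤ _ := by
          push_cast
          linarith
  exact_mod_cast h4

theorem numEdgesIn_univ (G : SimpleGraph V) : numEdgesIn G (univ : Finset V) = numEdges G := by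
  unfold numEdgesIn numEdges
  congr 1
  ext e
  simp

theorem numEdges_le (G : SimpleGraph V) :
    2 * numEdges G ≤ Fintype.card V * (Fintype.card V - 1) := by
  classical
  have h1 : numEdges G = G.edgeFinset.card := by
    unfold numEdges
    rw [← SimpleGraph.coe_edgeFinset, Set.ncard_coe_finset]
  have h2 := G.card_edgeFinset_le_card_choose_two
  rw [← h1] at h2
  rw [Nat.choose_two_right] at h2
  omega

theorem pow_four_le (v : ℕ) (hv : 16 ≤ v) : v ^ 4 ≤ 2 ^ v := by
  induction v, hv using Nat.le_induction with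
  | base => norm_num
  | succ n hn ih =>
    have h1 : (n + 1) ^ 4 ≤ 2 * n ^ 4 := by
      nlinarith [Nat.pow_le_pow_left hn 2, Nat.pow_le_pow_left hn 3,
        Nat.mul_le_mul_right (n ^ 3) hn, Nat.mul_le_mul_right (n ^ 2) hn,
        Nat.mul_le_mul_right n hn]
    calc (n + 1) ^ 4 ≤ 2 * n ^ 4 := h1
      _ ≤ 2 * 2 ^ n := Nat.mul_le_mul_left _ ih
      _ = 2 ^ (n + 1) := by ring

/-- **Negative theorem**, dense graphs. -/
theorem negative_dense (G : SimpleGraph V)
    (h : (Fintype.card V : ℝ) * (3 * Real.logb 2 (Fintype.card V) + 2) < (numEdges G : ℝ)) :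
    RegularCounterexamples G := by
  apply negative G univ
  rw [numEdgesIn_univ, card_univ]
  set v := Fintype.card V with hv
  set e := numEdges G with he
  have hE := numEdges_le G
  rw [← hv, ← he] at hE
  have hER : 2 * (e : ℝ) ≤ (v : ℝ) * (v - 1) := by
    rcases Nat.eq_zero_or_pos v with h0 | h0
    · rw [h0] at hE ⊢
      have : e = 0 := by omega
      rw [this]
      simp
    · have : ((2 * e : ℕ) : ℝ) ≤ ((v * (v - 1) : ℕ) : ℝ) := by exact_mod_cast hE
      rw [Nat.cast_mul, Nat.cast_mul, Nat.cast_sub h0] at this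
      push_cast at this
      exact this
  -- v is large
  have hv18 : 18 ≤ v := by
    by_contra hc
    push Not at hc
    rcases Nat.lt_or_ge v 4 with h4 | h4
    · rcases Nat.eq_zero_or_pos v with h0 | h0
      · have h00 : e = 0 := by
          rw [h0] at hE
          omega
        rw [h00, h0] at h
        simp at h
      · have hlog : 0 ≤ Real.logb 2 v := Real.logb_nonneg (by norm_num) (by exact_mod_cast h0)
        have h0' : (1 : ℝ) ≤ v := by exact_mod_cast h0
        have h4' : (v : ℝ) < 4 := by exact_mod_cast h4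
        nlinarith
    · have hlog : 2 ≤ Real.logb 2 v := by
        rw [Real.le_logb_iff_rpow_le (by norm_num) (by positivity)]
        have : ((4 : ℕ) : ℝ) ≤ v := by exact_mod_cast h4
        norm_num at this ⊢
        exact this
      have h4' : (4 : ℝ) ≤ v := by exact_mod_cast h4
      have h17 : (v : ℝ) ≤ 17 := by exact_mod_cast (by omega : v ≤ 17)
      nlinarith
  have hv0 : (0 : ℝ) < v := by positivity
  -- lower bound for 2^(e+1+1)
  have hpow : (v : ℝ) ^ (3 * v) * 4 ^ v * 4 ≤ (2 : ℝ) ^ (e + 2) := by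
    have e1 : (v : ℝ) ^ (3 * v) * 4 ^ v * 4 =
        (2 : ℝ) ^ ((v : ℝ) * (3 * Real.logb 2 v + 2) + 2) := by
      rw [Real.rpow_add (by norm_num)]
      have e2 : (v : ℝ) * (3 * Real.logb 2 v + 2) = Real.logb 2 v * ((3 * v : ℕ) : ℝ) +
          2 * (v : ℝ) := by
        push_cast
        ring
      rw [e2, Real.rpow_add (by norm_num), Real.rpow_mul (by norm_num),
        Real.rpow_logb (by norm_num) (by norm_num) hv0, Real.rpow_natCast,
        Real.rpow_mul (by norm_num), Real.rpow_natCast]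
      norm_num
    rw [e1, ← Real.rpow_natCast]
    apply Real.rpow_le_rpow_of_exponent_le (by norm_num)
    push_cast
    linarith
  have hpowN : v ^ (3 * v) * 4 ^ v * 4 ≤ 2 ^ (e + 2) := by exact_mod_cast hpow
  have hle4 : 4 * (e + 1) + 1 ≤ 2 * v ^ 2 := by
    have h5 : v * (v - 1) = v ^ 2 - v := by
      rw [Nat.mul_sub, mul_one, sq]
    rw [h5] at hE
    have h6 : v ≤ v ^ 2 := by nlinarith
    omega
  have h7 : ((4 * (e + 1) + 1) * v) ^ v ≤ 2 ^ v * v ^ (3 * v) := by
    calc ((4 * (e + 1) + 1) * v) ^ v ≤ (2 * v ^ 2 * v) ^ v :=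
          Nat.pow_le_pow_left (Nat.mul_le_mul_right _ hle4) _
      _ = 2 ^ v * v ^ (3 * v) := by
          rw [pow_mul, ← mul_pow]
          ring_nf
  have h8 : (e + 1) * (e + 2) ≤ 4 * 2 ^ v := by
    have h9 := pow_four_le v (by omega)
    have h10 : e + 1 ≤ v ^ 2 := by omega
    have h11 : e + 2 ≤ v ^ 2 := by omega
    calc (e + 1) * (e + 2) ≤ v ^ 2 * v ^ 2 := Nat.mul_le_mul h10 h11
      _ = v ^ 4 := by ring
      _ ≤ 2 ^ v := h9
      _ ≤ 4 * 2 ^ v := by omega
  have h12 : ((4 * (e + 1) + 1) * v) ^ v * ((e + 1) * (e + 2)) ≤ 2 ^ (e + 2) := by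
    calc ((4 * (e + 1) + 1) * v) ^ v * ((e + 1) * (e + 2)) ≤
        (2 ^ v * v ^ (3 * v)) * (4 * 2 ^ v) := Nat.mul_le_mul h7 h8
      _ = v ^ (3 * v) * 4 ^ v * 4 := by
          have : (4 : ℕ) ^ v = 2 ^ v * 2 ^ v := by
            rw [← mul_pow]
            norm_num
          rw [this]
          ring
      _ ≤ _ := hpowN
  -- binomials
  have he36 : 36 < e := by
    have hlog0 : 0 ≤ Real.logb 2 v := Real.logb_nonneg (by norm_num)
      (by exact_mod_cast (by omega : 1 ≤ v))
    have h18 : (18 : ℝ) ≤ v := by exact_mod_cast hv18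
    have : (36 : ℝ) < e := by nlinarith
    exact_mod_cast this
  have hcb : 4 ^ (e + 1) < (e + 1) * (2 * (e + 1)).choose (e + 1) := by
    have := Nat.four_pow_lt_mul_centralBinom (e + 1) (by omega)
    rwa [Nat.centralBinom_eq_two_mul_choose] at this
  have hch : (2 * (e + 1)).choose (e + 1) * (e + 1) = (2 * (e + 1)).choose e * (e + 2) := by
    have := Nat.choose_succ_right_eq (2 * (e + 1)) e
    rw [this]
    congr 1
    omega
  have hKe : (e + 1).choose e = e + 1 := Nat.choose_succ_self_right e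
  rw [hKe]
  have hfin : ((4 * (e + 1) + 1) * v) ^ v * ((e + 1) * 2 ^ e) * (e + 2) <
      (2 * (e + 1)).choose e * (e + 2) := by
    rw [← hch]
    calc ((4 * (e + 1) + 1) * v) ^ v * ((e + 1) * 2 ^ e) * (e + 2)
        = ((4 * (e + 1) + 1) * v) ^ v * ((e + 1) * (e + 2)) * 2 ^ e := by ring
      _ ≤ 2 ^ (e + 2) * 2 ^ e := Nat.mul_le_mul_right _ h12
      _ = 4 ^ (e + 1) := by
          rw [← pow_add]
          have : (4 : ℕ) = 2 ^ 2 := by norm_num
          rw [this, ← pow_mul]
          congr 1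
          ring
      _ < (e + 1) * (2 * (e + 1)).choose (e + 1) := hcb
      _ = _ := by ring
  exact Nat.lt_of_mul_lt_mul_right hfin

end

/-- Exactly regular colourings without a rainbow copy refute the property. -/
theorem not_forces_of {V : Type} (G : SimpleGraph V) (h : RegularCounterexamples G) :
    ¬ ForcesRainbow G := by
  rintro ⟨ε, hε, n₀, hn⟩
  obtain ⟨M, hM⟩ := exists_nat_gt (1 / ε)
  obtain ⟨m, hm1, hm2⟩ : ∃ m : ℕ, M + 1 ≤ m ∧ n₀ ≤ m := ⟨max (M + 1) n₀, le_max_left _ _,
    le_max_right _ _⟩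
  obtain ⟨c, hc1, hc2⟩ := h m (by omega)
  apply hc2
  apply hn
  · calc n₀ ≤ m := hm2
      _ ≤ 4 * (numEdges G + 1) * m + 1 := by nlinarith [Nat.zero_le (numEdges G)]
  · intro i k
    rw [hc1]
    have hK : (0 : ℝ) < ((numEdges G + 1 : ℕ) : ℝ) := by positivity
    rw [div_le_iff₀ hK]
    push_cast
    have hme : 1 ≤ ε * m := by
      have h1 : (M : ℝ) ≤ m := by exact_mod_cast (by omega : M ≤ m)
      have h2 : 1 / ε < m := by linarith
      rw [div_lt_iff₀ hε] at h2
      linarith
    have hK1 : (1 : ℝ) ≤ (numEdges G : ℝ) + 1 := by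
      have : (0 : ℝ) ≤ (numEdges G : ℝ) := Nat.cast_nonneg _
      linarith
    have h3 : 1 ≤ ((numEdges G : ℝ) + 1) * (ε * m) := by
      calc (1 : ℝ) = 1 * 1 := by ring
        _ ≤ ((numEdges G : ℝ) + 1) * (ε * m) :=
          mul_le_mul hK1 hme (by norm_num) (by linarith)
    nlinarith

end Pool.Agent.Lib.MP_b1acb3_co
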