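import Pool.Agent.Lib.MP_b1acb3_co.Defs
import Pool.Agent.Lib.MP_b1acb3_co.LLL
import Pool.Agent.Lib.MP_b1acb3_co.Neg

/-!
The positive theorem: if the 2-core of `G` is small, then every locally balanced colouring
contains a rainbow copy of `G`.
-/

namespace Pool.Agent.Lib.MP_b1acb3_co

open Finset

/-- Every vertex of `W` has at most `Δ` neighbours in `W`. -/
def MaxDegIn {V : Type} (G : SimpleGraph V) (W : Finset V) (Δ : ℕ) : Prop :=
  ∀ v ∈ W, {u | u ∈ W ∧ G.Adj v u}.ncard ≤ Δ

section

set_option linter.unusedSectionVars false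

variable {V : Type} [Fintype V]

/-- Averaging over the value at `y`. -/
theorem update_bound [DecidableEq V] {n : ℕ} (E : Finset (V → Fin n)) (y : V) (B : ℝ)
    (h : ∀ g : V → Fin n,
      ((univ.filter (fun a : Fin n => Function.update g y a ∈ E)).card : ℝ) ≤ B) :
    (E.card : ℝ) * n ≤ B * ((univ : Finset (V → Fin n)).card : ℝ) := by
  have h1 : ((univ : Finset ((V → Fin n) × Fin n)).filter
      (fun x => Function.update x.1 y x.2 ∈ E)).card = (E ×ˢ (univ : Finset (Fin n))).card := by
    refine card_bij' (fun x _ => (Function.update x.1 y x.2, x.1 y))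
      (fun x _ => (Function.update x.1 y x.2, x.1 y)) ?_ ?_ ?_ ?_
    · intro x hx
      rw [mem_filter] at hx
      rw [mem_product]
      exact ⟨hx.2, mem_univ _⟩
    · intro x hx
      rw [mem_product] at hx
      rw [mem_filter]
      refine ⟨mem_univ _, ?_⟩
      simp only [Function.update_idem, Function.update_eq_self]
      exact hx.1
    · intro x _
      simp
    · intro x _
      simp
  have h2 : ((univ : Finset ((V → Fin n) × Fin n)).filter
      (fun x => Function.update x.1 y x.2 ∈ E)).card =
      ∑ g : V → Fin n, (univ.filter (fun a : Fin n => Function.update g y a ∈ E)).card := by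
    rw [card_filter, Fintype.sum_prod_type]
    apply sum_congr rfl
    intro g _
    rw [card_filter]
  rw [card_product, card_univ, Fintype.card_fin] at h1
  calc (E.card : ℝ) * n = ((E.card * n : ℕ) : ℝ) := by push_cast; ring
    _ = ((∑ g : V → Fin n,
          (univ.filter (fun a : Fin n => Function.update g y a ∈ E)).card : ℕ) : ℝ) := by
        rw [← h1, h2]
    _ = ∑ g : V → Fin n,
          ((univ.filter (fun a : Fin n => Function.update g y a ∈ E)).card : ℝ) := by
        push_cast
        rfl
    _ ≤ ∑ _g : V → Fin n, B := sum_le_sum (fun g _ => h g)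
    _ = _ := by
        rw [sum_const, nsmul_eq_mul]
        ring

theorem card_noninj_pair [DecidableEq V] {n : ℕ} (u v : V) (huv : u ≠ v) :
    ((univ.filter (fun f : V → Fin n => f u = f v)).card : ℝ) * n ≤
      1 * ((univ : Finset (V → Fin n)).card : ℝ) := by
  apply update_bound _ v
  intro g
  have : univ.filter (fun a : Fin n =>
      Function.update g v a ∈ univ.filter (fun f : V → Fin n => f u = f v)) ⊆ {g u} := by
    intro a ha
    rw [mem_filter, mem_filter] at ha
    have h1 := ha.2.2
    rw [Function.update_of_ne huv, Function.update_self] at h1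
    rw [mem_singleton]
    exact h1.symm
  have h2 := card_le_card this
  rw [card_singleton] at h2
  exact_mod_cast h2

/-- Few functions are not injective. -/
theorem card_noninj [DecidableEq V] {n : ℕ} :
    ((univ.filter (fun f : V → Fin n => ¬ Function.Injective f)).card : ℝ) * n ≤
      ((Fintype.card V : ℝ) ^ 2) * ((univ : Finset (V → Fin n)).card : ℝ) := by
  have h1 : univ.filter (fun f : V → Fin n => ¬ Function.Injective f) ⊆
      ((univ : Finset (V × V)).filter (fun x => x.1 ≠ x.2)).biUnion
        (fun x => univ.filter (fun f : V → Fin n => f x.1 = f x.2)) := by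
    intro f hf
    rw [mem_filter] at hf
    have h2 := hf.2
    unfold Function.Injective at h2
    push Not at h2
    obtain ⟨a, b, hab, hne⟩ := h2
    rw [mem_biUnion]
    exact ⟨(a, b), mem_filter.2 ⟨mem_univ _, hne⟩, mem_filter.2 ⟨mem_univ _, hab⟩⟩
  have h2 := (card_le_card h1).trans card_biUnion_le
  have h3 : ((univ.filter (fun f : V → Fin n => ¬ Function.Injective f)).card : ℝ) ≤
      ∑ x ∈ (univ : Finset (V × V)).filter (fun x => x.1 ≠ x.2),
        ((univ.filter (fun f : V → Fin n => f x.1 = f x.2)).card : ℝ) := by exact_mod_cast h2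
  calc ((univ.filter (fun f : V → Fin n => ¬ Function.Injective f)).card : ℝ) * n ≤
      (∑ x ∈ (univ : Finset (V × V)).filter (fun x => x.1 ≠ x.2),
        ((univ.filter (fun f : V → Fin n => f x.1 = f x.2)).card : ℝ)) * n :=
        mul_le_mul_of_nonneg_right h3 (Nat.cast_nonneg _)
    _ = ∑ x ∈ (univ : Finset (V × V)).filter (fun x => x.1 ≠ x.2),
        ((univ.filter (fun f : V → Fin n => f x.1 = f x.2)).card : ℝ) * n := by rw [sum_mul]
    _ ≤ ∑ _x ∈ (univ : Finset (V × V)).filter (fun x => x.1 ≠ x.2),
        (1 * ((univ : Finset (V → Fin n)).card : ℝ)) :=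
        sum_le_sum (fun x hx => card_noninj_pair x.1 x.2 (mem_filter.1 hx).2)
    _ = (((univ : Finset (V × V)).filter (fun x => x.1 ≠ x.2)).card : ℝ) *
        ((univ : Finset (V → Fin n)).card : ℝ) := by
        rw [sum_const, nsmul_eq_mul, one_mul]
    _ ≤ _ := by
        apply mul_le_mul_of_nonneg_right _ (Nat.cast_nonneg _)
        have h4 : ((univ : Finset (V × V)).filter (fun x => x.1 ≠ x.2)).card ≤
            Fintype.card V ^ 2 := by
          refine (card_le_card (filter_subset _ _)).trans ?_
          rw [card_univ, Fintype.card_prod, sq]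
        exact_mod_cast h4

/-- The bad event of a set `P` of edges. -/
noncomputable def pbad {n K : ℕ} (c : Sym2 (Fin n) → Fin K) (P : Finset (Sym2 V)) :
    Finset (V → Fin n) := by
  classical
  exact univ.filter (fun f => ¬ Set.InjOn (fun e : Sym2 V => c (e.map f)) (P : Set (Sym2 V)))

theorem mem_pbad {n K : ℕ} (c : Sym2 (Fin n) → Fin K) (P : Finset (Sym2 V)) (f : V → Fin n) :
    f ∈ pbad c P ↔ ¬ Set.InjOn (fun e : Sym2 V => c (e.map f)) (P : Set (Sym2 V)) := by
  classical
  simp [pbad]

theorem map_congr_of {n : ℕ} (e : Sym2 V) (f g : V → Fin n) (h : ∀ x ∈ e, f x = g x) :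
    e.map f = e.map g := by
  induction e using Sym2.ind with
  | _ a b =>
    rw [Sym2.map_mk, Sym2.map_mk, h a (Sym2.mem_mk_left a b), h b (Sym2.mem_mk_right a b)]

theorem exists_diff {G : SimpleGraph V} {e₁ e₂ : Sym2 V} (h1 : e₁ ∈ G.edgeSet)
    (h2 : e₂ ∈ G.edgeSet) (hne : e₁ ≠ e₂) : ∃ x y, e₂ = s(x, y) ∧ x ≠ y ∧ y ∉ e₁ := by
  induction e₁ using Sym2.ind with
  | _ a b =>
    induction e₂ using Sym2.ind with
    | _ x y =>
      have hab : a ≠ b := G.ne_of_adj h1
      have hxy : x ≠ y := G.ne_of_adj h2
      by_cases hy : y ∈ s(a, b)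
      · refine ⟨y, x, Sym2.eq_swap, hxy.symm, ?_⟩
        intro hx
        apply hne
        rw [Sym2.mem_iff] at hx hy
        rcases hx with rfl | rfl
        · rcases hy with rfl | rfl
          · exact absurd rfl hxy
          · rfl
        · rcases hy with rfl | rfl
          · exact Sym2.eq_swap
          · exact absurd rfl hxy
      · exact ⟨x, y, rfl, hxy, hy⟩

/-- Two edges get the same colour with probability at most `p`. -/
theorem card_same [DecidableEq V] {G : SimpleGraph V} {n K : ℕ} (c : Sym2 (Fin n) → Fin K)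
    (D : ℝ) (hD : ∀ i k, (colourDegree c i k : ℝ) + 1 ≤ D) {e₁ e₂ : Sym2 V}
    (h1 : e₁ ∈ G.edgeSet) (h2 : e₂ ∈ G.edgeSet) (hne : e₁ ≠ e₂) :
    ((univ.filter (fun f : V → Fin n => c (e₁.map f) = c (e₂.map f))).card : ℝ) * n ≤
      D * ((univ : Finset (V → Fin n)).card : ℝ) := by
  obtain ⟨x, y, rfl, hxy, hy⟩ := exists_diff h1 h2 hne
  apply update_bound _ y
  intro g
  refine le_trans ?_ (hD (g x) (c (e₁.map g)))
  have h3 : univ.filter (fun a : Fin n => Function.update g y a ∈
      univ.filter (fun f : V → Fin n => c (e₁.map f) = c (s(x, y).map f))) ⊆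
      insert (g x) (univ.filter (fun j : Fin n => j ≠ g x ∧ c s(g x, j) = c (e₁.map g))) := by
    intro a ha
    rw [mem_filter, mem_filter] at ha
    have h4 := ha.2.2
    rw [Sym2.map_mk, Function.update_of_ne hxy, Function.update_self,
      map_congr_of e₁ (Function.update g y a) g
        (fun z hz => Function.update_of_ne (fun h : z = y => hy (by rw [← h]; exact hz)) _ _)] at h4
    rw [mem_insert]
    by_cases hax : a = g x
    · exact Or.inl hax
    · right
      rw [mem_filter]
      exact ⟨mem_univ _, hax, h4.symm⟩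
  have h5 := (card_le_card h3).trans (card_insert_le _ _)
  have h6 : (univ.filter (fun j : Fin n => j ≠ g x ∧ c s(g x, j) = c (e₁.map g))).card =
      colourDegree c (g x) (c (e₁.map g)) := by
    unfold colourDegree
    apply congrArg
    ext j
    simp only [mem_filter]
  rw [h6] at h5
  exact_mod_cast h5

theorem card_pbad [DecidableEq V] {G : SimpleGraph V} {n K : ℕ} (hn : 0 < n) (c : Sym2 (Fin n) → Fin K)
    (p : ℝ) (hD : ∀ i k, (colourDegree c i k : ℝ) + 1 ≤ p * n) {P : Finset (Sym2 V)}
    (hP : ∀ e ∈ P, e ∈ G.edgeSet) (hP2 : P.card = 2) :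
    ((pbad c P).card : ℝ) ≤ p * ((univ : Finset (V → Fin n)).card : ℝ) := by
  classical
  obtain ⟨e₁, e₂, hne, rfl⟩ := card_eq_two.1 hP2
  have h1 := card_same c (p * n) hD (hP e₁ (by simp)) (hP e₂ (by simp)) hne
  have h2 : pbad c {e₁, e₂} ⊆ univ.filter (fun f : V → Fin n => c (e₁.map f) = c (e₂.map f)) := by
    intro f hf
    rw [mem_pbad] at hf
    rw [mem_filter]
    refine ⟨mem_univ _, ?_⟩
    by_contra hc
    apply hf
    intro a ha b hb hab
    simp only [coe_insert, coe_singleton, Set.mem_insert_iff, Set.mem_singleton_iff] at ha hb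
    simp only at hab
    rcases ha with rfl | rfl
    · rcases hb with rfl | rfl
      · rfl
      · exact absurd hab hc
    · rcases hb with rfl | rfl
      · exact absurd hab.symm hc
      · rfl
  have h3 : ((pbad c {e₁, e₂}).card : ℝ) ≤
      ((univ.filter (fun f : V → Fin n => c (e₁.map f) = c (e₂.map f))).card : ℝ) := by
    exact_mod_cast card_le_card h2
  have hn' : (0 : ℝ) < n := by exact_mod_cast hn
  have h4 : ((pbad c {e₁, e₂}).card : ℝ) * n ≤
      (p * ((univ : Finset (V → Fin n)).card : ℝ)) * n := by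
    calc ((pbad c {e₁, e₂}).card : ℝ) * n ≤ _ * n := mul_le_mul_of_nonneg_right h3 hn'.le
      _ ≤ _ := h1
      _ = _ := by ring
  exact le_of_mul_le_mul_right h4 hn'

/-- The vertices of a set of edges. -/
noncomputable def verts (P : Finset (Sym2 V)) : Finset V := by
  classical
  exact univ.filter (fun x => ∃ e ∈ P, x ∈ e)

theorem mem_verts (P : Finset (Sym2 V)) (x : V) : x ∈ verts P ↔ ∃ e ∈ P, x ∈ e := by
  classical
  simp [verts]

theorem detBy_pbad [DecidableEq V] {n K : ℕ} (c : Sym2 (Fin n) → Fin K) (P : Finset (Sym2 V)) :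
    DetBy (pbad c P) (verts P) := by
  intro f g hfg
  have h1 : ∀ e ∈ P, e.map f = e.map g := fun e he =>
    map_congr_of e f g (fun x hx => hfg x ((mem_verts P x).2 ⟨e, he, hx⟩))
  rw [mem_pbad, mem_pbad, not_iff_not]
  constructor
  · intro h a ha b hb hab
    apply h ha hb
    simp only at hab ⊢
    rw [h1 a ha, h1 b hb]
    exact hab
  · intro h a ha b hb hab
    apply h ha hb
    simp only at hab ⊢
    rw [← h1 a ha, ← h1 b hb]
    exact hab

theorem card_edges_at {G : SimpleGraph V} {W : Finset V} {Δ : ℕ} (hΔ : MaxDegIn G W Δ)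
    (v : V) (hv : v ∈ W) [DecidablePred (fun e : Sym2 V => v ∈ e)] :
    ((edgesIn G W).filter (fun e => v ∈ e)).card ≤ Δ := by
  classical
  refine le_trans ?_ (hΔ v hv)
  rw [← Set.ncard_coe_finset]
  have h1 : (((edgesIn G W).filter (fun e => v ∈ e) : Finset (Sym2 V)) : Set (Sym2 V)) ⊆
      (fun u => s(v, u)) '' {u | u ∈ W ∧ G.Adj v u} := by
    intro e he
    rw [mem_coe, mem_filter, mem_edgesIn] at he
    obtain ⟨⟨he1, he2⟩, he3⟩ := he
    obtain ⟨u, rfl⟩ := Sym2.mem_iff_exists.1 he3
    exact ⟨u, ⟨he2 u (Sym2.mem_mk_right v u), he1⟩, rfl⟩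
  exact (Set.ncard_le_ncard h1 (Set.toFinite _)).trans (Set.ncard_image_le (Set.toFinite _))

/-- Number of pairs of edges meeting a given pair. -/
theorem card_nbhd {G : SimpleGraph V} {W : Finset V} {Δ : ℕ} (hΔ : MaxDegIn G W Δ)
    (A : Finset (Sym2 V)) (hA : A ∈ powersetCard 2 (edgesIn G W))
    [DecidablePred (fun B : Finset (Sym2 V) => ¬ Disjoint (verts A) (verts B))] :
    ((powersetCard 2 (edgesIn G W)).filter
      (fun B => ¬ Disjoint (verts A) (verts B))).card ≤ 4 * Δ * (numEdgesIn G W - 1) := by
  classical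
  rw [mem_powersetCard] at hA
  -- edges touching A
  set T := (edgesIn G W).filter (fun e => ∃ x ∈ e, x ∈ verts A) with hT
  have hvA : (verts A).card ≤ 4 := by
    obtain ⟨e₁, e₂, _, rfl⟩ := card_eq_two.1 hA.2
    induction e₁ using Sym2.ind with
    | _ a b =>
      induction e₂ using Sym2.ind with
      | _ x y =>
        have : verts ({s(a, b), s(x, y)} : Finset (Sym2 V)) ⊆ {a, b, x, y} := by
          intro z hz
          rw [mem_verts] at hz
          obtain ⟨e, he, hze⟩ := hz
          simp only [mem_insert, mem_singleton] at he ⊢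
          rcases he with rfl | rfl
          · rw [Sym2.mem_iff] at hze
            tauto
          · rw [Sym2.mem_iff] at hze
            tauto
        exact (card_le_card this).trans card_le_four
  have hvW : ∀ x ∈ verts A, x ∈ W := by
    intro x hx
    rw [mem_verts] at hx
    obtain ⟨e, he, hxe⟩ := hx
    exact ((mem_edgesIn G W e).1 (hA.1 he)).2 x hxe
  have hTcard : T.card ≤ 4 * Δ := by
    have h1 : T ⊆ (verts A).biUnion (fun x => (edgesIn G W).filter (fun e => x ∈ e)) := by
      intro e he
      rw [hT, mem_filter] at he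
      obtain ⟨he1, x, hx1, hx2⟩ := he
      rw [mem_biUnion]
      exact ⟨x, hx2, mem_filter.2 ⟨he1, hx1⟩⟩
    calc T.card ≤ _ := card_le_card h1
      _ ≤ ∑ x ∈ verts A, ((edgesIn G W).filter (fun e => x ∈ e)).card := card_biUnion_le
      _ ≤ ∑ _x ∈ verts A, Δ := sum_le_sum (fun x hx => card_edges_at hΔ x (hvW x hx))
      _ = (verts A).card * Δ := by rw [sum_const, smul_eq_mul]
      _ ≤ 4 * Δ := Nat.mul_le_mul_right _ hvA
  have h2 : (powersetCard 2 (edgesIn G W)).filter (fun B => ¬ Disjoint (verts A) (verts B)) ⊆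
      T.biUnion (fun e => ((edgesIn G W).erase e).image (fun e' => {e, e'})) := by
    intro B hB
    rw [mem_filter, mem_powersetCard] at hB
    obtain ⟨⟨hB1, hB2⟩, hB3⟩ := hB
    rw [Finset.not_disjoint_iff] at hB3
    obtain ⟨x, hxA, hxB⟩ := hB3
    rw [mem_verts] at hxB
    obtain ⟨e, he, hxe⟩ := hxB
    rw [mem_biUnion]
    refine ⟨e, ?_, ?_⟩
    · rw [hT, mem_filter]
      exact ⟨hB1 he, x, hxe, hxA⟩
    · obtain ⟨e₁, e₂, hne, rfl⟩ := card_eq_two.1 hB2
      rw [mem_image]
      rw [mem_insert, mem_singleton] at he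
      rcases he with rfl | rfl
      · exact ⟨e₂, mem_erase.2 ⟨hne.symm, hB1 (by simp)⟩, rfl⟩
      · exact ⟨e₁, mem_erase.2 ⟨hne, hB1 (by simp)⟩, pair_comm _ _⟩
  calc _ ≤ _ := card_le_card h2
    _ ≤ ∑ e ∈ T, (((edgesIn G W).erase e).image (fun e' => ({e, e'} : Finset (Sym2 V)))).card :=
        card_biUnion_le
    _ ≤ ∑ _e ∈ T, (numEdgesIn G W - 1) := by
        apply sum_le_sum
        intro e he
        refine card_image_le.trans ?_
        rw [hT, mem_filter] at he
        rw [card_erase_of_mem he.1, card_edgesIn]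
    _ = T.card * (numEdgesIn G W - 1) := by rw [sum_const, smul_eq_mul]
    _ ≤ _ := Nat.mul_le_mul_right _ hTcard

/-- A positive proportion of all maps is rainbow on the core. -/
theorem core_count [DecidableEq V] (G : SimpleGraph V) (W : Finset V) (Δ : ℕ) (hΔ : MaxDegIn G W Δ) (p : ℝ)
    (hp : 0 ≤ p)
    (hcond : ((numEdgesIn G W).choose 2 : ℝ) * p < 1 ∨
      (2 * p < 1 ∧ 4 * p * (4 * Δ * (numEdgesIn G W - 1 : ℕ)) ≤ 1)) :
    ∃ δ : ℝ, 0 < δ ∧ ∀ (n : ℕ) (_ : 0 < n) (K : ℕ) (c : Sym2 (Fin n) → Fin K),
      (∀ i k, (colourDegree c i k : ℝ) + 1 ≤ p * n) →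
      ∃ Gd : Finset (V → Fin n), δ * ((univ : Finset (V → Fin n)).card : ℝ) ≤ (Gd.card : ℝ) ∧
        ∀ f ∈ Gd, Set.InjOn (fun e : Sym2 V => c (e.map f)) (edgesIn G W : Set (Sym2 V)) := by
  classical
  set F := powersetCard 2 (edgesIn G W) with hF
  have hFcard : F.card = (numEdgesIn G W).choose 2 := by
    rw [hF, card_powersetCard, card_edgesIn]
  have hgood : ∀ (n : ℕ) (K : ℕ) (c : Sym2 (Fin n) → Fin K),
      ∀ f ∈ good (univ : Finset (V → Fin n)) (pbad c) F,
        Set.InjOn (fun e : Sym2 V => c (e.map f)) (edgesIn G W : Set (Sym2 V)) := by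
    intro n K c f hf
    rw [mem_good] at hf
    intro a ha b hb hab
    by_contra hne
    have h1 : ({a, b} : Finset (Sym2 V)) ∈ F := by
      rw [hF, mem_powersetCard]
      refine ⟨?_, card_pair hne⟩
      intro x hx
      rw [mem_insert, mem_singleton] at hx
      rcases hx with rfl | rfl
      · exact ha
      · exact hb
    have h2 := hf.2 _ h1
    rw [mem_pbad, not_not] at h2
    exact hne (h2 (by simp) (by simp) hab)
  have hedge : ∀ A ∈ F, ∀ e ∈ A, e ∈ G.edgeSet := by
    intro A hA e he
    rw [hF, mem_powersetCard] at hA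
    exact ((mem_edgesIn G W e).1 (hA.1 he)).1
  rcases hcond with hc | ⟨hc1, hc2⟩
  · refine ⟨1 - ((numEdgesIn G W).choose 2 : ℝ) * p, by linarith, ?_⟩
    intro n hn K c hD
    refine ⟨good univ (pbad c) F, ?_, hgood n K c⟩
    have h1 : (univ : Finset (V → Fin n)) ⊆ good univ (pbad c) F ∪ F.biUnion (pbad c) := by
      intro f _
      rw [mem_union, mem_good, mem_biUnion]
      by_cases h : ∃ B ∈ F, f ∈ pbad c B
      · right
        exact h
      · left
        push Not at h
        exact ⟨mem_univ _, h⟩
    have h2 := (card_le_card h1).trans (card_union_le _ _)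
    have h3 : ((F.biUnion (pbad c)).card : ℝ) ≤
        F.card * (p * ((univ : Finset (V → Fin n)).card : ℝ)) := by
      calc ((F.biUnion (pbad c)).card : ℝ) ≤ ((∑ B ∈ F, (pbad c B).card : ℕ) : ℝ) := by
            exact_mod_cast card_biUnion_le
        _ = ∑ B ∈ F, ((pbad c B).card : ℝ) := by push_cast; rfl
        _ ≤ ∑ _B ∈ F, (p * ((univ : Finset (V → Fin n)).card : ℝ)) := by
            apply sum_le_sum
            intro B hB
            exact card_pbad hn c p hD (hedge B hB) (mem_powersetCard.1 hB).2
        _ = _ := by rw [sum_const, nsmul_eq_mul]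
    have h4 : ((univ : Finset (V → Fin n)).card : ℝ) ≤
        ((good univ (pbad c) F).card : ℝ) + ((F.biUnion (pbad c)).card : ℝ) := by
      exact_mod_cast h2
    rw [hFcard] at h3
    have h5 : (1 - ((numEdgesIn G W).choose 2 : ℝ) * p) * ((univ : Finset (V → Fin n)).card : ℝ) =
        ((univ : Finset (V → Fin n)).card : ℝ) -
        ((numEdgesIn G W).choose 2 : ℝ) * (p * ((univ : Finset (V → Fin n)).card : ℝ)) := by ring
    rw [h5]
    linarith
  · refine ⟨(1 - 2 * p) ^ F.card, pow_pos (by linarith) _, ?_⟩
    intro n hn K c hD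
    refine ⟨good univ (pbad c) F, ?_, hgood n K c⟩
    have hcardpos : (0 : ℝ) < ((univ : Finset (V → Fin n)).card : ℝ) := by
      have : (univ : Finset (V → Fin n)).Nonempty := ⟨fun _ => ⟨0, hn⟩, mem_univ _⟩
      exact_mod_cast card_pos.2 this
    apply lll_count univ (pbad c) F (fun A => F.filter (fun B => ¬ Disjoint (verts A) (verts B)))
      p (4 * Δ * (numEdgesIn G W - 1 : ℕ)) hp hc1 _ hc2
    · intro A hA S hS hdis _
      have hgoodDet : DetBy (good univ (pbad c) S) (verts A)ᶜ := by
        intro κ κ' hκ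
        rw [mem_good, mem_good]
        have h2 : ∀ B ∈ S, (κ ∈ pbad c B ↔ κ' ∈ pbad c B) := by
          intro B hB
          apply detBy_pbad c B
          intro u hu
          apply hκ
          rw [mem_compl]
          intro huA
          have h3 : B ∈ F.filter (fun B => ¬ Disjoint (verts A) (verts B)) := by
            rw [mem_filter]
            exact ⟨hS hB, fun hd => (Finset.disjoint_left.1 hd) huA hu⟩
          exact (Finset.disjoint_left.1 hdis) hB h3
        constructor
        · rintro ⟨_, h4⟩
          exact ⟨mem_univ _, fun B hB => fun h5 => h4 B hB ((h2 B hB).2 h5)⟩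
        · rintro ⟨_, h4⟩
          exact ⟨mem_univ _, fun B hB => fun h5 => h4 B hB ((h2 B hB).1 h5)⟩
      have h1 : (good univ (pbad c) S).filter (fun w => w ∈ pbad c A) =
          pbad c A ∩ good univ (pbad c) S := by
        ext w
        rw [mem_filter, mem_inter, and_comm]
      have h5 := indep_count (pbad c A) (good univ (pbad c) S) (verts A) (detBy_pbad c A) hgoodDet
      rw [h1]
      have h6 : ((pbad c A ∩ good univ (pbad c) S).card : ℝ) *
          (univ : Finset (V → Fin n)).card = (pbad c A).card * (good univ (pbad c) S).card := by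
        exact_mod_cast h5
      have h7 : ((pbad c A ∩ good univ (pbad c) S).card : ℝ) *
          (univ : Finset (V → Fin n)).card ≤
          (p * (good univ (pbad c) S).card) * (univ : Finset (V → Fin n)).card := by
        rw [h6]
        calc ((pbad c A).card : ℝ) * (good univ (pbad c) S).card
            ≤ (p * (univ : Finset (V → Fin n)).card) * (good univ (pbad c) S).card :=
              mul_le_mul_of_nonneg_right
                (card_pbad hn c p hD (hedge A hA) (mem_powersetCard.1 hA).2) (by positivity)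
          _ = _ := by ring
      exact le_of_mul_le_mul_right h7 hcardpos
    · intro A hA
      have := card_nbhd hΔ A hA
      exact_mod_cast this

/-- Greedy extension. -/
theorem extend [DecidableEq V] (G : SimpleGraph V) (W : Finset V) (hW : TreeLikeOutside G W)
    {n : ℕ} (c : Sym2 (Fin n) → Fin (numEdges G + 1))
    (hdeg : ∀ i k, Fintype.card V < colourDegree c i k)
    (f₀ : V → Fin n) (hf₀ : Function.Injective f₀)
    (hf₀' : Set.InjOn (fun e : Sym2 V => c (e.map f₀)) (edgesIn G W : Set (Sym2 V))) :
    ∀ (t : ℕ) (X : Finset V), W ⊆ X → X.card = W.card + t →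
      ∃ f : V → Fin n, Function.Injective f ∧
        Set.InjOn (fun e : Sym2 V => c (e.map f)) (edgesIn G X : Set (Sym2 V)) := by
  classical
  intro t
  induction t with
  | zero =>
    intro X hWX hX
    have : W = X := eq_of_subset_of_card_le hWX (by omega)
    rw [← this]
    exact ⟨f₀, hf₀, hf₀'⟩
  | succ t ih =>
    intro X hWX hX
    have hss : W ⊂ X := by
      refine ⟨hWX, fun h => ?_⟩
      have := card_le_card h
      omega
    obtain ⟨x, hxX, hxW, hdegx⟩ := hW X hss
    have hWX' : W ⊆ X.erase x := by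
      intro w hw
      rw [mem_erase]
      exact ⟨fun h => hxW (h ▸ hw), hWX hw⟩
    obtain ⟨f, hf, hf'⟩ := ih (X.erase x) hWX' (by rw [card_erase_of_mem hxX]; omega)
    by_cases hnb : ∃ y, y ∈ X ∧ G.Adj x y
    · obtain ⟨y, hyX, hxy⟩ := hnb
      have huniq : ∀ z, z ∈ X → G.Adj x z → z = y := by
        intro z hz hxz
        have h1 : {y | y ∈ X ∧ G.Adj x y}.Finite := Set.toFinite _
        exact (Set.ncard_le_one h1).1 hdegx z ⟨hz, hxz⟩ y ⟨hyX, hxy⟩
      have hyx : y ≠ x := (G.ne_of_adj hxy).symm
      -- unused colour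
      have hlt : (edgesIn G (X.erase x)).card < numEdges G := by
        have h1 : s(x, y) ∉ edgesIn G (X.erase x) := by
          rw [mem_edgesIn]
          rintro ⟨_, h2⟩
          have := h2 x (Sym2.mem_mk_left x y)
          exact absurd this (notMem_erase x X)
        have h2 : insert s(x, y) (edgesIn G (X.erase x)) ⊆ edgesIn G univ := by
          intro e he
          rw [mem_insert] at he
          rw [mem_edgesIn]
          rcases he with rfl | he
          · exact ⟨hxy, fun _ _ => mem_univ _⟩
          · exact ⟨((mem_edgesIn G _ e).1 he).1, fun _ _ => mem_univ _⟩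
        have h3 := card_le_card h2
        rw [card_insert_of_notMem h1, card_edgesIn G univ, numEdgesIn_univ] at h3
        omega
      obtain ⟨k, hk⟩ : ∃ k : Fin (numEdges G + 1),
          k ∉ (edgesIn G (X.erase x)).image (fun e : Sym2 V => c (e.map f)) := by
        by_contra hcon
        push Not at hcon
        have h1 : (univ : Finset (Fin (numEdges G + 1))) ⊆
            (edgesIn G (X.erase x)).image (fun e : Sym2 V => c (e.map f)) := fun k _ => hcon k
        have h2 := (card_le_card h1).trans card_image_le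
        rw [card_univ, Fintype.card_fin] at h2
        omega
      -- new vertex
      obtain ⟨j, hj1, hj2⟩ : ∃ j ∈ univ.filter (fun j : Fin n => j ≠ f y ∧ c s(f y, j) = k),
          j ∉ univ.image f := by
        by_contra hcon
        push Not at hcon
        have h1 : univ.filter (fun j : Fin n => j ≠ f y ∧ c s(f y, j) = k) ⊆
            univ.image f := fun j hj => hcon j hj
        have h2 := (card_le_card h1).trans card_image_le
        have h3 := hdeg (f y) k
        unfold colourDegree at h3
        rw [card_univ] at h2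
        have h4 : (univ.filter (fun j : Fin n => j ≠ f y ∧ c s(f y, j) = k)).card =
          (@Finset.filter (Fin n) (fun j => j ≠ f y ∧ c s(f y, j) = k)
            (fun a => Classical.propDecidable _) univ).card := by
          congr!
        omega
      rw [mem_filter] at hj1
      rw [mem_image] at hj2
      push Not at hj2
      refine ⟨Function.update f x j, ?_, ?_⟩
      · intro a b hab
        by_cases ha : a = x
        · by_cases hb : b = x
          · rw [ha, hb]
          · rw [ha, Function.update_self, Function.update_of_ne hb] at hab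
            exact absurd hab.symm (hj2 b (mem_univ b))
        · by_cases hb : b = x
          · rw [hb, Function.update_self, Function.update_of_ne ha] at hab
            exact absurd hab (hj2 a (mem_univ a))
          · rw [Function.update_of_ne ha, Function.update_of_ne hb] at hab
            exact hf hab
      · have hsplit : ∀ e ∈ edgesIn G X, e = s(x, y) ∨ e ∈ edgesIn G (X.erase x) := by
          intro e he
          rw [mem_edgesIn] at he
          by_cases hxe : x ∈ e
          · left
            obtain ⟨z, rfl⟩ := Sym2.mem_iff_exists.1 hxe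
            rw [huniq z (he.2 z (Sym2.mem_mk_right x z)) he.1]
          · right
            rw [mem_edgesIn]
            refine ⟨he.1, fun z hz => ?_⟩
            rw [mem_erase]
            exact ⟨fun h => hxe (h ▸ hz), he.2 z hz⟩
        have hold : ∀ e ∈ edgesIn G (X.erase x),
            c (e.map (Function.update f x j)) = c (e.map f) := by
          intro e he
          rw [map_congr_of e (Function.update f x j) f]
          intro z hz
          have := ((mem_edgesIn G _ e).1 he).2 z hz
          rw [mem_erase] at this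
          exact Function.update_of_ne this.1 _ _
        have hnew : c (s(x, y).map (Function.update f x j)) = k := by
          rw [Sym2.map_mk, Function.update_self, Function.update_of_ne hyx, Sym2.eq_swap]
          exact hj1.2.2
        intro a ha b hb hab
        simp only at hab
        rcases hsplit a ha with rfl | ha'
        · rcases hsplit b hb with rfl | hb'
          · rfl
          · exfalso
            rw [hnew, hold b hb'] at hab
            apply hk
            rw [mem_image]
            exact ⟨b, hb', hab.symm⟩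
        · rcases hsplit b hb with rfl | hb'
          · exfalso
            rw [hnew, hold a ha'] at hab
            apply hk
            rw [mem_image]
            exact ⟨a, ha', hab⟩
          · rw [hold a ha', hold b hb'] at hab
            exact hf' ha' hb' hab
    · push Not at hnb
      refine ⟨f, hf, ?_⟩
      have : edgesIn G X ⊆ edgesIn G (X.erase x) := by
        intro e he
        rw [mem_edgesIn] at he ⊢
        refine ⟨he.1, fun z hz => ?_⟩
        rw [mem_erase]
        refine ⟨?_, he.2 z hz⟩
        rintro rfl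
        obtain ⟨w, rfl⟩ := Sym2.mem_iff_exists.1 hz
        exact hnb w (he.2 w (Sym2.mem_mk_right z w)) he.1
      exact hf'.mono (by exact_mod_cast this)

end

/-- The colour degrees at a vertex add up to `n - 1`. -/
theorem sum_colourDegree {n K : ℕ} (c : Sym2 (Fin n) → Fin K) (i : Fin n) :
    ∑ k, colourDegree c i k = n - 1 := by
  classical
  unfold colourDegree
  have h1 : (univ.filter (fun j : Fin n => j ≠ i)).card = n - 1 := by
    rw [filter_ne', card_erase_of_mem (mem_univ _), card_univ, Fintype.card_fin]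
  rw [← h1, card_eq_sum_card_fiberwise (f := fun j => c s(i, j)) (t := univ)
    (fun _ _ => mem_coe.2 (mem_univ _))]
  apply sum_congr rfl
  intro k _
  rw [filter_filter]

theorem colourDegree_le {n K : ℕ} (hK : 0 < K) (ε : ℝ) (c : Sym2 (Fin n) → Fin K)
    (hc : IsBalanced ε c) (i : Fin n) (k : Fin K) :
    (colourDegree c i k : ℝ) + 1 ≤ n - ((K : ℝ) - 1) * ((1 - ε) * n / K) := by
  classical
  have hn : 0 < n := Fin.pos i
  have h1 := sum_colourDegree c i
  have h2 : ∑ k', (colourDegree c i k' : ℝ) = (n : ℝ) - 1 := by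
    have : ((∑ k', colourDegree c i k' : ℕ) : ℝ) = ((n - 1 : ℕ) : ℝ) := by rw [h1]
    rw [Nat.cast_sub hn] at this
    push_cast at this
    exact this
  rw [← add_sum_erase univ _ (mem_univ k)] at h2
  have h3 : ((K : ℝ) - 1) * ((1 - ε) * n / K) ≤ ∑ k' ∈ univ.erase k, (colourDegree c i k' : ℝ) := by
    calc ((K : ℝ) - 1) * ((1 - ε) * n / K) = ∑ _k' ∈ univ.erase k, ((1 - ε) * n / K) := by
          rw [sum_const, card_erase_of_mem (mem_univ _), card_univ, Fintype.card_fin,
            nsmul_eq_mul, Nat.cast_sub hK]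
          push_cast
          ring
      _ ≤ _ := sum_le_sum (fun k' _ => hc i k')
  linarith

/-- **Positive theorem.** -/
theorem positive {V : Type} [Fintype V] (G : SimpleGraph V) (W : Finset V) (Δ : ℕ)
    (hW : TreeLikeOutside G W) (hΔ : MaxDegIn G W Δ)
    (h : (numEdgesIn G W).choose 2 ≤ numEdges G ∨
      16 * Δ * (numEdgesIn G W - 1) ≤ numEdges G) : ForcesRainbow G := by
  classical
  set e := numEdges G with he
  set K : ℝ := (e : ℝ) + 1 with hK
  have hK1 : 1 ≤ K := by
    have : (0 : ℝ) ≤ e := Nat.cast_nonneg _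
    linarith
  set p : ℝ := 2 / (2 * K - 1) with hp
  have hden : 0 < 2 * K - 1 := by linarith
  have hp0 : 0 < p := by positivity
  have hcond : ((numEdgesIn G W).choose 2 : ℝ) * p < 1 ∨
      (2 * p < 1 ∧ 4 * p * (4 * Δ * (numEdgesIn G W - 1 : ℕ)) ≤ 1) := by
    by_cases h1 : (numEdgesIn G W).choose 2 ≤ e
    · left
      have h1' : ((numEdgesIn G W).choose 2 : ℝ) ≤ K - 1 := by
        rw [hK]
        have : ((numEdgesIn G W).choose 2 : ℝ) ≤ e := by exact_mod_cast h1
        linarith
      rw [hp, ← mul_div_assoc, div_lt_one hden]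
      linarith
    · right
      have h2 := h.resolve_left h1
      have h3 : 2 ≤ numEdgesIn G W := by
        by_contra hc
        push Not at hc
        apply h1
        rw [Nat.choose_eq_zero_of_lt hc]
        exact Nat.zero_le _
      have h4 : numEdgesIn G W ≤ e := by
        rw [← card_edgesIn, he, ← numEdgesIn_univ, ← card_edgesIn]
        apply card_le_card
        intro x hx
        rw [mem_edgesIn] at hx ⊢
        exact ⟨hx.1, fun _ _ => mem_univ _⟩
      have h5 : (2 : ℝ) ≤ e := by exact_mod_cast h3.trans h4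
      have h2' : (16 : ℝ) * Δ * (numEdgesIn G W - 1 : ℕ) ≤ K - 1 := by
        rw [hK]
        have : ((16 * Δ * (numEdgesIn G W - 1) : ℕ) : ℝ) ≤ (e : ℝ) := by exact_mod_cast h2
        push_cast at this ⊢
        linarith
      constructor
      · rw [hp, ← mul_div_assoc, div_lt_one hden]
        linarith
      · have h6 : 4 * p * (4 * Δ * (numEdgesIn G W - 1 : ℕ)) =
            ((16 : ℝ) * Δ * (numEdgesIn G W - 1 : ℕ)) * p := by ring
        rw [h6]
        calc ((16 : ℝ) * Δ * (numEdgesIn G W - 1 : ℕ)) * p ≤ (K - 1) * p :=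
              mul_le_mul_of_nonneg_right h2' hp0.le
          _ ≤ 1 := by
              rw [hp, ← mul_div_assoc, div_le_one hden]
              linarith
  obtain ⟨δ, hδ, hcore⟩ := core_count G W Δ hΔ p hp0.le hcond
  obtain ⟨N, hN⟩ := exists_nat_gt ((Fintype.card V : ℝ) ^ 2 / δ + 2 * K * Fintype.card V + 4 * K ^ 2)
  refine ⟨1 / (4 * K ^ 2), by positivity, N + 1, ?_⟩
  intro n hn c hc
  have hn0 : 0 < n := by omega
  have hnR : ((Fintype.card V : ℝ) ^ 2 / δ + 2 * K * Fintype.card V + 4 * K ^ 2) < n := by
    have : (N : ℝ) ≤ n := by exact_mod_cast (by omega : N ≤ n)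
    linarith
  have hv0 : (0 : ℝ) ≤ (Fintype.card V : ℝ) := Nat.cast_nonneg _
  have hn1 : (Fintype.card V : ℝ) ^ 2 / δ < n := by
    have : 0 ≤ 2 * K * Fintype.card V + 4 * K ^ 2 := by positivity
    linarith
  have hn2 : 2 * K * Fintype.card V < n := by
    have : 0 ≤ (Fintype.card V : ℝ) ^ 2 / δ + 4 * K ^ 2 := by positivity
    linarith
  have hn3 : 4 * K ^ 2 < n := by
    have : 0 ≤ (Fintype.card V : ℝ) ^ 2 / δ + 2 * K * Fintype.card V := by positivity
    linarith
  have hnpos : (0 : ℝ) < n := by exact_mod_cast hn0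
  have hKcast : (((numEdges G + 1 : ℕ)) : ℝ) = K := by
    rw [hK, he]
    push_cast
    ring
  have hup : ∀ i k, (colourDegree c i k : ℝ) + 1 ≤ p * n := by
    intro i k
    refine (colourDegree_le (Nat.succ_pos _) _ c hc i k).trans ?_
    rw [hKcast, hp]
    have hKne : K ≠ 0 := by linarith
    have e1 : (n : ℝ) - (K - 1) * ((1 - 1 / (4 * K ^ 2)) * n / K) =
        n * (1 / K + (K - 1) / (4 * K ^ 3)) := by
      field_simp
      ring
    rw [e1, mul_comm (2 / (2 * K - 1)) (n : ℝ)]
    apply mul_le_mul_of_nonneg_left _ hnpos.le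
    rw [div_add_div _ _ (by positivity) (by positivity), div_le_div_iff₀ (by positivity) hden]
    have hK0 : 0 < K := by linarith
    nlinarith [mul_pos hK0 hK0, mul_pos (mul_pos hK0 hK0) hK0,
      mul_nonneg (by linarith : 0 ≤ K - 1) hK0.le]
  have hlow : ∀ i k, Fintype.card V < colourDegree c i k := by
    intro i k
    have h1 := hc i k
    rw [hKcast] at h1
    have h2 : (n : ℝ) / (2 * K) ≤ (1 - 1 / (4 * K ^ 2)) * n / K := by
      have hK0 : 0 < K := by linarith
      rw [div_le_div_iff₀ (by positivity) hK0]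
      have h3 : (1 : ℝ) / 2 ≤ 1 - 1 / (4 * K ^ 2) := by
        have : 1 / (4 * K ^ 2) ≤ 1 / 4 := by
          apply div_le_div_of_nonneg_left (by norm_num) (by norm_num)
          nlinarith
        linarith
      nlinarith [mul_pos hnpos hK0]
    have h4 : (Fintype.card V : ℝ) < n / (2 * K) := by
      rw [lt_div_iff₀ (by positivity)]
      linarith
    have h5 : (Fintype.card V : ℝ) < colourDegree c i k := by linarith
    exact_mod_cast h5
  obtain ⟨Gd, hGd1, hGd2⟩ := hcore n hn0 _ c hup
  obtain ⟨f₀, hf₀, hf₀'⟩ : ∃ f ∈ Gd, Function.Injective f := by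
    by_contra hcon
    push Not at hcon
    have h1 : Gd ⊆ univ.filter (fun f : V → Fin n => ¬ Function.Injective f) := by
      intro f hf
      rw [mem_filter]
      exact ⟨mem_univ _, hcon f hf⟩
    have h2 : (Gd.card : ℝ) ≤
        ((univ.filter (fun f : V → Fin n => ¬ Function.Injective f)).card : ℝ) := by
      exact_mod_cast card_le_card h1
    have h3 := card_noninj (V := V) (n := n)
    have hcardpos : (0 : ℝ) < ((univ : Finset (V → Fin n)).card : ℝ) := by
      have : (univ : Finset (V → Fin n)).Nonempty := ⟨fun _ => ⟨0, hn0⟩, mem_univ _⟩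
      exact_mod_cast card_pos.2 this
    have h4 : (δ * n) * ((univ : Finset (V → Fin n)).card : ℝ) ≤
        ((Fintype.card V : ℝ) ^ 2) * ((univ : Finset (V → Fin n)).card : ℝ) := by
      calc (δ * n) * ((univ : Finset (V → Fin n)).card : ℝ) =
          (δ * ((univ : Finset (V → Fin n)).card : ℝ)) * n := by ring
        _ ≤ ((univ.filter (fun f : V → Fin n => ¬ Function.Injective f)).card : ℝ) * n :=
            mul_le_mul_of_nonneg_right (hGd1.trans h2) hnpos.le
        _ ≤ _ := h3
    have h5 := le_of_mul_le_mul_right h4 hcardpos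
    rw [div_lt_iff₀ hδ] at hn1
    linarith
  obtain ⟨f, hf1, hf2⟩ := extend G W hW c hlow f₀ hf₀' (hGd2 f₀ hf₀)
    ((univ : Finset V).card - W.card) univ (subset_univ _)
    (by have := card_le_card (subset_univ W); omega)
  refine ⟨f, hf1, ?_⟩
  intro a ha b hb hab
  exact hf2 ((mem_edgesIn G univ a).2 ⟨ha, fun _ _ => mem_univ _⟩)
    ((mem_edgesIn G univ b).2 ⟨hb, fun _ _ => mem_univ _⟩) hab

end Pool.Agent.Lib.MP_b1acb3_co
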